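import Pool.Agent.MP_67f0e4_gt.D1.Spec

/-! The moment map is a smooth function of the scale, of `log |x|²` and of `z`. -/

open scoped ContDiff Topology
open Filter Set

namespace Pool.Agent.MP_67f0e4_gt.D1

open K

variable {n : ℕ}

theorem ks_prod {c : Fin n → ℂ} {q : H73.P} (h : q ∈ H73.Up c) :
    ∏ j, (rr c j q.1 q.2 + q.1) = Real.exp (H73.ll c q) := by
  rw [H73.ll, Real.exp_sum]
  exact Finset.prod_congr rfl fun j _ => (Real.exp_log (h j)).symm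

theorem ks_up (hM : MuF n) (c : Fin n → ℂ) {p : C3} (hp : p ∈ Xs c) (hx : p.1 ≠ 0) :
    ((mu c p, p.2.2) : H73.P) ∈ H73.Up c ∧
      H73.Th c (mu c p, p.2.2) = (Real.log (‖p.1‖ ^ 2), p.2.2) := by
  have h1 := hM.plus c p hp
  have h2 : ∏ j, (rr c j (mu c p) p.2.2 + mu c p) ≠ 0 := by
    rw [h1]
    exact pow_ne_zero _ (norm_ne_zero_iff.2 hx)
  have h3 : ((mu c p, p.2.2) : H73.P) ∈ H73.Up c := fun j => by
    have h4 := H73.abs_le_rr (c j) (mu c p, p.2.2)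
    have h5 := neg_abs_le (mu c p)
    exact lt_of_le_of_ne (by linarith) (Finset.prod_ne_zero_iff.1 h2 j (Finset.mem_univ j)).symm
  refine ⟨h3, Prod.ext ?_ rfl⟩
  show H73.ll c _ = Real.log _
  rw [← h1, ks_prod h3, Real.log_exp]

theorem ks_sx (c : Fin n → ℂ) {q : V} (h : q.1 ≠ 0) : sx c q ∈ Xs c :=
  mul_div_cancel₀ _ h

theorem ks_ne (l : ℝ) : ((Real.exp (l / 2) : ℝ) : ℂ) ≠ 0 :=
  Complex.ofReal_ne_zero.2 (Real.exp_pos _).ne'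

theorem ks_nsq (l : ℝ) : ‖((Real.exp (l / 2) : ℝ) : ℂ)‖ ^ 2 = Real.exp l := by
  rw [Complex.norm_real, Real.norm_eq_abs, sq_abs, sq, ← Real.exp_add, add_halves]

theorem ks_up' (hM : MuF n) (a : Fin n → ℂ) (t l : ℝ) (z : ℂ) :
    ((MU a (t, l, z), z) : H73.P) ∈ H73.Up (sc t a) ∧
      H73.Th (sc t a) (MU a (t, l, z), z) = (l, z) := by
  have h := ks_up hM (sc t a) (ks_sx (sc t a) (q := ((Real.exp (l / 2) : ℝ), z)) (ks_ne l))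
    (ks_ne l)
  refine ⟨h.1, h.2.trans ?_⟩
  show (Real.log (‖((Real.exp (l / 2) : ℝ) : ℂ)‖ ^ 2), z) = (l, z)
  rw [ks_nsq, Real.log_exp]

theorem ks_inv (hM : MuF n) (a : Fin n → ℂ) (t : ℝ) {q : H73.P} (hq : q ∈ H73.Up (sc t a)) :
    MU a (t, H73.Th (sc t a) q) = q.1 ∧ KK a (t, H73.Th (sc t a) q) = H73.RR (sc t a) q := by
  have h : MU a (t, H73.Th (sc t a) q) = q.1 :=
    hM.uniqx (sc t a) _ (ks_sx (sc t a) (q := ((Real.exp (H73.ll (sc t a) q / 2) : ℝ), q.2))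
      (ks_ne _)) (ks_ne _) q.1 ((ks_prod hq).trans (ks_nsq _).symm)
  refine ⟨h, ?_⟩
  unfold KK
  rw [h]
  rfl

theorem ks_rr {E : Type} [NormedAddCommGroup E] [NormedSpace ℝ E] (a : Fin n → ℂ) (j : Fin n)
    {t m : E → ℝ} {z : E → ℂ} {x : E} (ht : ContDiffAt ℝ ∞ t x) (hm : ContDiffAt ℝ ∞ m x)
    (hz : ContDiffAt ℝ ∞ z x) (h : 0 < rr (sc (t x) a) j (m x) (z x)) :
    ContDiffAt ℝ ∞ (fun y => rr (sc (t y) a) j (m y) (z y)) x := by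
  have h1 : ContDiffAt ℝ ∞ (fun y => ((t y : ℝ) : ℂ)) x :=
    Complex.ofRealCLM.contDiff.contDiffAt.comp x ht
  exact ((hm.pow 2).add ((hz.sub (h1.mul contDiffAt_const)).norm_sq ℝ)).sqrt
    (Real.sqrt_pos.1 h).ne'

theorem ks_unit (L : ℝ →L[ℝ] ℝ) (h : L 1 ≠ 0) : L.IsInvertible := by
  refine ⟨ContinuousLinearEquiv.unitsEquivAut ℝ (Units.mk0 _ h), ?_⟩
  ext
  simp

theorem ks_ift {E : Type} [NormedAddCommGroup E] [NormedSpace ℝ E] [CompleteSpace E]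
    {f : E × ℝ → ℝ} {b : E} {m : ℝ} (hf : ContDiffAt ℝ ∞ f (b, m)) {L : ℝ →L[ℝ] ℝ}
    (hd : HasFDerivAt (fun y => f (b, y)) L m) (hL : L 1 ≠ 0) :
    ∃ ψ : E → ℝ, ContDiffAt ℝ ∞ ψ b ∧ ψ b = m ∧ ∀ᶠ x in 𝓝 b, f (x, ψ x) = f (b, m) := by
  have h0 : (∞ : WithTop ℕ∞) ≠ 0 := by simp
  have hi : (fderiv ℝ f (b, m) ∘L .inr ℝ E ℝ).IsInvertible := by
    have h1 : HasFDerivAt (fun y : ℝ => f (b, y)) _ m :=
      (hf.differentiableAt h0).hasFDerivAt.comp m (hasFDerivAt_prodMk_right b m)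
    rw [h1.unique hd]
    exact ks_unit _ hL
  exact ⟨_, hf.contDiffAt_implicitFunction h0 hi, hf.implicitFunction_apply_self h0 hi,
    hf.eventually_apply_implicitFunction h0 hi⟩

theorem ks_smooth (hn : 1 ≤ n) (hM : MuF n) (a : Fin n → ℂ) : ContDiff ℝ ∞ (MU a) := by
  have : Nonempty (Fin n) := ⟨⟨0, hn⟩⟩
  refine contDiff_iff_contDiffAt.2 fun b => ?_
  obtain ⟨hu, hT⟩ := ks_up' hM a b.1 b.2.1 b.2.2
  have hb : MU a (b.1, b.2.1, b.2.2) = MU a b := rfl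
  rw [hb] at hu hT
  have hr : ∀ j, ContDiffAt ℝ ∞ (fun w : (ℝ × ℝ × ℂ) × ℝ =>
      rr (sc w.1.1 a) j w.2 w.1.2.2 + w.2) (b, MU a b) := fun j =>
    (ks_rr a j (t := fun w : (ℝ × ℝ × ℂ) × ℝ => w.1.1) (m := fun w => w.2)
      (z := fun w => w.1.2.2) (x := (b, MU a b)) (by fun_prop) (by fun_prop) (by fun_prop)
      (H73.rr_pos (hu j))).add contDiffAt_snd
  have hl : ContDiffAt ℝ ∞ (fun w : (ℝ × ℝ × ℂ) × ℝ =>
      ∑ j, Real.log (rr (sc w.1.1 a) j w.2 w.1.2.2 + w.2)) (b, MU a b) :=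
    ContDiffAt.sum fun j _ => (hr j).log (hu j).ne'
  have hf : ContDiffAt ℝ ∞ (fun w : (ℝ × ℝ × ℂ) × ℝ =>
      H73.ll (sc w.1.1 a) (w.2, w.1.2.2) - w.1.2.1) (b, MU a b) := hl.sub (by fun_prop)
  have h2 := (HasFDerivAt.comp (f := fun m : ℝ => (m, b.2.2)) (MU a b)
    ((H73.ll_c2 hu).differentiableAt (by norm_num)).hasFDerivAt
      (hasFDerivAt_prodMk_left (MU a b) b.2.2)).sub_const b.2.1
  obtain ⟨ψ, hψ, hψ0, hev⟩ := ks_ift hf h2 ((H73.fd_ll0 hu).trans_ne (H73.VV_pos hu).ne')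
  have hf0 : H73.ll (sc b.1 a) (MU a b, b.2.2) - b.2.1 = 0 :=
    sub_eq_zero.2 (congrArg Prod.fst hT)
  have hc : Tendsto (fun x => (x, ψ x)) (𝓝 b) (𝓝 (b, MU a b)) :=
    hψ0 ▸ (continuousAt_id.prodMk hψ.continuousAt).tendsto
  have hU : ∀ᶠ x in 𝓝 b, ∀ j, 0 < rr (sc x.1 a) j (ψ x) x.2.2 + ψ x :=
    eventually_all.2 fun j => hc.eventually ((hr j).continuousAt.eventually (lt_mem_nhds (hu j)))
  refine hψ.congr_of_eventuallyEq ?_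
  filter_upwards [hev, hU] with x h1 h2
  have h3 := (ks_inv hM a x.1 (q := (ψ x, x.2.2)) h2).1
  have h4 : H73.Th (sc x.1 a) (ψ x, x.2.2) = x.2 := Prod.ext (sub_eq_zero.1 (h1.trans hf0)) rfl
  rwa [h4] at h3

theorem ks_psix (hM : MuF n) (a : Fin n → ℂ) (t : ℝ) {p : C3} (hp : p ∈ Xs (sc t a))
    (hx : p.1 ≠ 0) : mu (sc t a) p = MU a (t, Real.log (‖p.1‖ ^ 2), p.2.2) ∧
      psi (sc t a) p = 2 * KK a (t, Real.log (‖p.1‖ ^ 2), p.2.2) := by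
  obtain ⟨h1, h2⟩ := ks_up hM _ hp hx
  obtain ⟨h3, h4⟩ := ks_inv hM a t h1
  rw [h2] at h3 h4
  exact ⟨h3.symm, by rw [h4]; rfl⟩

theorem sks : SKS := by
  intro n hn hM
  have : Nonempty (Fin n) := ⟨⟨0, hn⟩⟩
  have hr : ∀ (a : Fin n → ℂ) (b : ℝ × ℝ × ℂ) j, 0 < rr (sc b.1 a) j (MU a b) b.2.2 :=
    fun a b j => H73.rr_pos ((ks_up' hM a b.1 b.2.1 b.2.2).1 j)
  have hK : ∀ a : Fin n → ℂ, ContDiff ℝ ∞ (KK a) := fun a =>
    contDiff_iff_contDiffAt.2 fun b => ContDiffAt.sum fun j _ =>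
      ks_rr a j (by fun_prop) (ks_smooth hn hM a).contDiffAt (by fun_prop) (hr a b j)
  refine ⟨ks_smooth hn hM, hK, ks_up' hM, fun a t q hq => ks_inv hM a t hq,
    fun a b => Finset.sum_pos (fun j _ => hr a b j) Finset.univ_nonempty,
    fun a t p hp hx => ks_psix hM a t hp hx, fun a => ?_⟩
  refine ContDiffOn.congr (f := fun b : ℝ × V => 2 * KK a (b.1, Real.log (‖b.2.1‖ ^ 2), b.2.2))
    (fun b hb => ContDiffAt.contDiffWithinAt ?_)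
    fun b hb => (ks_psix hM a b.1 (ks_sx _ hb) hb).2
  have h1 : ContDiffAt ℝ ∞ (fun b : ℝ × V => Real.log (‖b.2.1‖ ^ 2)) b :=
    (ContDiffAt.norm_sq ℝ (by fun_prop)).log (pow_ne_zero _ (norm_ne_zero_iff.2 hb))
  exact contDiffAt_const.mul ((hK a).contDiffAt.comp b
    (contDiffAt_fst.prodMk (h1.prodMk (by fun_prop))))

end Pool.Agent.MP_67f0e4_gt.D1
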