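import Pool.Agent.MP_67f0e4_gt.D1.Spec

/-! Row MU: the defining equation of the moment map. -/

open scoped Topology
open Filter Set

namespace Pool.Agent.MP_67f0e4_gt.D1

open K

variable {n : ℕ}

theorem mu_sq (a : Fin n → ℂ) (j : Fin n) (m : ℝ) (z : ℂ) :
    rr a j m z ^ 2 = m ^ 2 + ‖z - a j‖ ^ 2 := Real.sq_sqrt (by positivity)

theorem mu_abs (a : Fin n → ℂ) (j : Fin n) (m : ℝ) (z : ℂ) : |m| ≤ rr a j m z :=
  Real.abs_le_sqrt (le_add_of_nonneg_right (by positivity))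

theorem mu_neg (a : Fin n → ℂ) (j : Fin n) (m : ℝ) (z : ℂ) : rr a j (-m) z = rr a j m z := by
  unfold rr
  rw [neg_sq]

theorem mu_nn (a : Fin n → ℂ) (j : Fin n) (m : ℝ) (z : ℂ) : 0 ≤ rr a j m z + m := by
  have h1 := mu_abs a j m z
  have h2 := neg_abs_le m
  linarith

theorem mu_le (a : Fin n → ℂ) (j : Fin n) (z : ℂ) {m m' : ℝ} (h : m ≤ m') :
    rr a j m z + m ≤ rr a j m' z + m' := by
  have h1 := mu_sq a j m z
  have h2 := mu_sq a j m' z
  have h3 := mu_nn a j m' z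
  have h4 : 0 ≤ rr a j m' z := Real.sqrt_nonneg _
  have h5 : rr a j m z ≤ rr a j m' z + (m' - m) := by
    refine abs_le_of_sq_le_sq' ?_ (by linarith) |>.2
    nlinarith [mul_nonneg (sub_nonneg.2 h) h3]
  linarith

theorem mu_lt (a : Fin n → ℂ) (j : Fin n) (z : ℂ) {m m' : ℝ} (h : m < m') (h0 : 0 < m') :
    rr a j m z + m < rr a j m' z + m' := by
  have h1 := mu_sq a j m z
  have h2 := mu_sq a j m' z
  have h4 : 0 ≤ rr a j m' z := Real.sqrt_nonneg _
  have h3 : 0 < rr a j m' z + m' := by linarith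
  have h5 : rr a j m z < rr a j m' z + (m' - m) := by
    refine abs_lt_of_sq_lt_sq' ?_ (by linarith) |>.2
    nlinarith [mul_pos (sub_pos.2 h) h3]
  linarith

/-- The first product. -/
noncomputable def mu_A (a : Fin n → ℂ) (z : ℂ) (m : ℝ) : ℝ := ∏ j, (rr a j m z + m)

theorem mu_B (a : Fin n → ℂ) (z : ℂ) (m : ℝ) : ∏ j, (rr a j m z - m) = mu_A a z (-m) :=
  Finset.prod_congr rfl fun j _ => by rw [mu_neg, sub_eq_add_neg]

theorem mu_A_nn (a : Fin n → ℂ) (z : ℂ) (m : ℝ) : 0 ≤ mu_A a z m :=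
  Finset.prod_nonneg fun j _ => mu_nn a j m z

theorem mu_A_le (a : Fin n → ℂ) (z : ℂ) {m m' : ℝ} (h : m ≤ m') : mu_A a z m ≤ mu_A a z m' :=
  Finset.prod_le_prod (fun j _ => mu_nn a j m z) fun j _ => mu_le a j z h

theorem mu_A_lt (hn : 1 ≤ n) (a : Fin n → ℂ) (z : ℂ) {m m' : ℝ} (h : m < m') (h0 : 0 < m') :
    mu_A a z m < mu_A a z m' := by
  by_cases h1 : ∀ j, 0 < rr a j m z + m
  · exact Finset.prod_lt_prod_of_nonempty (fun j _ => h1 j) (fun j _ => mu_lt a j z h h0)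
      ⟨⟨0, hn⟩, Finset.mem_univ _⟩
  · rw [not_forall] at h1
    obtain ⟨j, hj⟩ := h1
    have h2 : mu_A a z m = 0 :=
      Finset.prod_eq_zero (Finset.mem_univ j) (le_antisymm (not_lt.1 hj) (mu_nn a j m z))
    rw [h2]
    exact Finset.prod_pos fun i _ => (mu_nn a i m z).trans_lt (mu_lt a i z h h0)

theorem mu_mono (hn : 1 ≤ n) (a : Fin n → ℂ) (z : ℂ) :
    StrictMono fun m : ℝ => mu_A a z m - mu_A a z (-m) := by
  intro m m' h
  have h1 := mu_A_le a z h.le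
  have h2 := mu_A_le a z (neg_le_neg h.le)
  change mu_A a z m - mu_A a z (-m) < mu_A a z m' - mu_A a z (-m')
  rcases lt_or_ge 0 m' with h3 | h3
  · have h4 := mu_A_lt hn a z h h3
    linarith
  · have h4 := mu_A_lt hn a z (neg_lt_neg h) (by linarith)
    linarith

theorem mu_A_cont (a : Fin n → ℂ) : Continuous fun w : ℂ × ℝ => mu_A a w.1 w.2 := by
  unfold mu_A rr
  fun_prop

theorem mu_A_ge (hn : 1 ≤ n) (a : Fin n → ℂ) (z : ℂ) {m : ℝ} (h : 1 ≤ m) : m ≤ mu_A a z m := by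
  have h1 : ∏ _j : Fin n, m ≤ mu_A a z m :=
    Finset.prod_le_prod (fun _ _ => by linarith) fun j _ =>
      le_add_of_nonneg_left (Real.sqrt_nonneg _)
  rw [Finset.prod_const, Finset.card_univ, Fintype.card_fin] at h1
  exact (le_self_pow₀ h (by omega)).trans h1

theorem mu_surj (hn : 1 ≤ n) (a : Fin n → ℂ) (z : ℂ) :
    Function.Surjective fun m : ℝ => mu_A a z m - mu_A a z (-m) := by
  have hc : Continuous (mu_A a z) := (mu_A_cont a).comp (Continuous.prodMk_right z)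
  refine Continuous.surjective (hc.sub (hc.comp continuous_neg)) ?_ ?_
  · refine tendsto_atTop_mono' atTop ?_
      (tendsto_atTop_add_const_right atTop (-mu_A a z 0) tendsto_id)
    filter_upwards [eventually_ge_atTop (1 : ℝ)] with m hm
    have h1 := mu_A_ge hn a z hm
    have h2 := mu_A_le a z (show -m ≤ 0 by linarith)
    simp only [id]
    linarith
  · refine tendsto_atBot_mono' atBot ?_
      (tendsto_atBot_add_const_right atBot (mu_A a z 0) tendsto_id)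
    filter_upwards [eventually_le_atBot (-1 : ℝ)] with m hm
    have h1 := mu_A_ge hn a z (show 1 ≤ -m by linarith)
    have h2 := mu_A_le a z (show m ≤ 0 by linarith)
    simp only [id]
    linarith

theorem mu_eq (hn : 1 ≤ n) (a : Fin n → ℂ) (p : C3) :
    mu_A a p.2.2 (mu a p) - mu_A a p.2.2 (-mu a p) = ‖p.1‖ ^ 2 - ‖p.2.1‖ ^ 2 := by
  rw [← mu_B]
  refine Classical.epsilon_spec (p := fun m : ℝ =>
    ∏ j, (rr a j m p.2.2 + m) - ∏ j, (rr a j m p.2.2 - m) = ‖p.1‖ ^ 2 - ‖p.2.1‖ ^ 2) ?_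
  obtain ⟨m, hm⟩ := mu_surj hn a p.2.2 (‖p.1‖ ^ 2 - ‖p.2.1‖ ^ 2)
  exact ⟨m, by rw [mu_B]; exact hm⟩

theorem mu_uniq (hn : 1 ≤ n) (a : Fin n → ℂ) (p : C3) (m : ℝ)
    (h : mu_A a p.2.2 m - mu_A a p.2.2 (-m) = ‖p.1‖ ^ 2 - ‖p.2.1‖ ^ 2) : mu a p = m :=
  (mu_mono hn a p.2.2).injective ((mu_eq hn a p).trans h.symm)

theorem mu_prod (a : Fin n → ℂ) {p : C3} (hp : p ∈ Xs a) (m : ℝ) :
    mu_A a p.2.2 m * mu_A a p.2.2 (-m) = ‖p.1‖ ^ 2 * ‖p.2.1‖ ^ 2 := by
  have h1 : p.1 * p.2.1 = Pz a p.2.2 := hp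
  rw [← mu_B, ← mul_pow, ← norm_mul, h1, Pz, norm_prod, ← Finset.prod_pow, mu_A,
    ← Finset.prod_mul_distrib]
  refine Finset.prod_congr rfl fun j _ => ?_
  have h2 := mu_sq a j m p.2.2
  linarith

theorem mu_two {A B X Y : ℝ} (hA : 0 ≤ A) (hB : 0 ≤ B) (hX : 0 ≤ X) (hY : 0 ≤ Y)
    (h1 : A - B = X - Y) (h2 : A * B = X * Y) : A = X := by
  rcases lt_trichotomy A X with h | h | h
  · exact absurd h2 (mul_lt_mul'' h (by linarith) hA hB).ne
  · exact h
  · exact absurd h2 (mul_lt_mul'' h (by linarith) hX hY).ne'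

theorem mu_plus (hn : 1 ≤ n) (a : Fin n → ℂ) {p : C3} (hp : p ∈ Xs a) :
    mu_A a p.2.2 (mu a p) = ‖p.1‖ ^ 2 :=
  mu_two (mu_A_nn _ _ _) (mu_A_nn _ _ _) (by positivity) (by positivity) (mu_eq hn a p)
    (mu_prod a hp _)

theorem mu_cont (hn : 1 ≤ n) (a : Fin n → ℂ) : Continuous (mu a) := by
  have hc : ∀ b : ℝ, Continuous fun p : C3 => mu_A a p.2.2 b - mu_A a p.2.2 (-b) := fun b =>
    ((mu_A_cont a).comp (continuous_snd.snd.prodMk continuous_const)).sub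
      ((mu_A_cont a).comp (continuous_snd.snd.prodMk continuous_const))
  have hr : Continuous fun p : C3 => ‖p.1‖ ^ 2 - ‖p.2.1‖ ^ 2 := by fun_prop
  refine continuous_iff_continuousAt.2 fun q => tendsto_order.2 ⟨fun b hb => ?_, fun b hb => ?_⟩
  · have h1 := (mu_mono hn a q.2.2 hb).trans_eq (mu_eq hn a q)
    filter_upwards [(hc b).continuousAt.eventually_lt hr.continuousAt h1] with p hp
    exact (mu_mono hn a p.2.2).lt_iff_lt.1 (hp.trans_eq (mu_eq hn a p).symm)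
  · have h1 := (mu_eq hn a q).symm.trans_lt (mu_mono hn a q.2.2 hb)
    filter_upwards [hr.continuousAt.eventually_lt (hc b).continuousAt h1] with p hp
    exact (mu_mono hn a p.2.2).lt_iff_lt.1 ((mu_eq hn a p).trans_lt hp)

theorem smu : SMU := by
  intro n hn
  refine ⟨fun a p => ?_, fun a z => ?_, fun a p m h => ?_, fun a p hp => mu_plus hn a hp,
    fun a p hp => ?_, fun a p hp h0 m h => ?_, mu_cont hn⟩
  · rw [mu_B]
    exact mu_eq hn a p
  · simp only [mu_B]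
    exact mu_mono hn a z
  · rw [mu_B] at h
    exact mu_uniq hn a p m h
  · have h1 := mu_eq hn a p
    rw [mu_plus hn a hp] at h1
    rw [mu_B]
    linarith
  · have h1 := mu_prod a hp m
    have h2 : mu_A a p.2.2 m = ‖p.1‖ ^ 2 := h
    rw [h2] at h1
    have h3 := mul_left_cancel₀ (pow_ne_zero 2 (norm_ne_zero_iff.2 h0)) h1
    exact mu_uniq hn a p m (by rw [h2, h3])

end Pool.Agent.MP_67f0e4_gt.D1
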