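import Pool.Agent.MP_67f0e4_gt.D1.RINF

/-! The metric read through the two coordinate systems agrees. -/

open scoped ContDiff Topology
open Filter Set

namespace Pool.Agent.MP_67f0e4_gt.D1

open K

theorem over_pot {n : ℕ} {pt : ℝ → V → ℝ} (hK : D2.KF n pt) {q : V} (h : q.1 ≠ 0) :
    ContDiffAt ℝ 2 (pt 1) q := by
  have ho : IsOpen {c : ℝ × V | c.2.1 ≠ 0} :=
    isOpen_ne_fun continuous_snd.fst continuous_const
  have h1 : ContDiffAt ℝ ∞ (pt 1) q :=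
    ContDiffAt.comp (g := fun c : ℝ × V => pt c.1 c.2) (f := fun q : V => ((1 : ℝ), q)) _
      (hK.smooth.contDiffAt (ho.mem_nhds h)) (contDiffAt_const.prodMk contDiffAt_id)
  exact h1.of_le (WithTop.coe_le_coe.2 (le_top : (2 : ℕ∞) ≤ ⊤))

theorem over_pp {n : ℕ} (hL : D2.LamF n) (ι : D2.E4 ≃L[ℝ] V) (κ : ℝ) {w : D2.E4}
    (h1 : ((1 : ℝ), κ • ι w) ∈ D2.Om n) (h2 : (D2.PP n ι κ 1 w).1 ≠ 0) :
    D2.PP n (sw ι) κ 1 w =
      (((D2.PP n ι κ 1 w).2 ^ n - 1) / (D2.PP n ι κ 1 w).1, (D2.PP n ι κ 1 w).2) := by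
  have h3 := hL.surf 1 _ h1
  rw [Complex.ofReal_one, one_pow] at h3
  have h4 : (D2.Ph n 1 (κ • ι w)).1 ≠ 0 := h2
  rw [D2.PP, inf_sw_smul, hL.swap]
  refine Prod.ext ?_ rfl
  show (D2.Ph n 1 (κ • ι w)).2.1 = ((D2.Ph n 1 (κ • ι w)).2.2 ^ n - 1) / (D2.Ph n 1 (κ • ι w)).1
  rw [eq_div_iff h4, mul_comm, h3]

theorem sover : SOVER := by
  intro n pt ι κ _ hL hV hK hsym v hv hv'
  let S : V → V := fun q => ((q.2 ^ n - 1) / q.1, q.2)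
  set q := D2.PP n ι κ 1 v with hq
  have hq1 : q.1 ≠ 0 := hv.2
  have hS : AnalyticAt ℂ S q :=
    (((analyticAt_snd.pow n).sub analyticAt_const).div analyticAt_fst hq1).prod analyticAt_snd
  have hd := inf_pp hL ι κ hv.1
  have e0 : D2.PP n (sw ι) κ 1 v = S q := over_pp hL ι κ hv.1 hv.2
  have hS1 : (S q).1 ≠ 0 := by
    rw [← e0]
    exact hv'.2
  have hz : q.2 ^ n - 1 ≠ 0 := fun h => hS1 (by simp only [S, h, zero_div])
  have n1 : ∀ᶠ w in 𝓝 v, ((1 : ℝ), κ • ι w) ∈ D2.Om n :=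
    (continuous_const.prodMk (ι.continuous.const_smul κ)).continuousAt.eventually
      (hL.isOpen.mem_nhds hv.1)
  have n2 : ∀ᶠ w in 𝓝 v, (D2.PP n ι κ 1 w).1 ≠ 0 := hd.continuousAt.fst.eventually_ne hq1
  have e1 : D2.PP n (sw ι) κ 1 =ᶠ[𝓝 v] S ∘ D2.PP n ι κ 1 := by
    filter_upwards [n1, n2] with w h1 h2
    exact over_pp hL ι κ h1 h2
  have hSd : DifferentiableAt ℝ S q := hS.differentiableAt.restrictScalars ℝ
  have e2 : fderiv ℝ (D2.PP n (sw ι) κ 1) v = (fderiv ℝ S q).comp (fderiv ℝ (D2.PP n ι κ 1) v) := by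
    rw [e1.fderiv_eq, fderiv_comp v hSd hd]
  have e3 : (fun w => pt 1 (S w)) =ᶠ[𝓝 q] pt 1 := by
    have m1 : ∀ᶠ w : V in 𝓝 q, w.1 ≠ 0 := continuous_fst.continuousAt.eventually_ne hq1
    have m2 : ∀ᶠ w : V in 𝓝 q, w.2 ^ n - 1 ≠ 0 :=
      ((continuous_snd.pow n).sub continuous_const).continuousAt.eventually_ne hz
    filter_upwards [m1, m2] with w h1 h2
    exact hsym w.1 w.2 h1 h2
  refine ContinuousLinearMap.ext fun a => ContinuousLinearMap.ext fun b => ?_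
  have e4 := hV.hol (pt 1) S q (over_pot hK hS1) hS (fderiv ℝ (D2.PP n ι κ 1) v a)
    (fderiv ℝ (D2.PP n ι κ 1) v b)
  rw [hV.germ _ _ _ e3] at e4
  show D2.levL (pt 1) q (fderiv ℝ (D2.PP n ι κ 1) v a) (fderiv ℝ (D2.PP n ι κ 1) v b) =
    D2.levL (pt 1) (D2.PP n (sw ι) κ 1 v) (fderiv ℝ (D2.PP n (sw ι) κ 1) v a)
      (fderiv ℝ (D2.PP n (sw ι) κ 1) v b)
  rw [e4, e0, e2]
  rfl

end Pool.Agent.MP_67f0e4_gt.D1
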