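import Pool.Agent.MP_67f0e4_gt.D1.Spec

/-! Row PS: symmetries, positivity and properness of the potential. -/

open Set

namespace Pool.Agent.MP_67f0e4_gt.D1

open K

variable {n : ℕ}

theorem ps_abs (a : Fin n → ℂ) (j : Fin n) (m : ℝ) (z : ℂ) : |m| ≤ rr a j m z :=
  Real.abs_le_sqrt (le_add_of_nonneg_right (sq_nonneg _))

theorem ps_norm (a : Fin n → ℂ) (j : Fin n) (m : ℝ) (z : ℂ) : ‖z - a j‖ ≤ rr a j m z :=
  Real.le_sqrt_of_sq_le (le_add_of_nonneg_left (sq_nonneg _))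

theorem ps_neg (a : Fin n → ℂ) (j : Fin n) (m : ℝ) (z : ℂ) : rr a j (-m) z = rr a j m z := by
  unfold rr
  rw [neg_sq]

theorem ps_single (a : Fin n → ℂ) (p : C3) (j : Fin n) : 2 * rr a j (mu a p) p.2.2 ≤ psi a p := by
  have := Finset.single_le_sum (f := fun j => rr a j (mu a p) p.2.2) (s := Finset.univ)
    (fun i _ => Real.sqrt_nonneg _) (Finset.mem_univ j)
  unfold psi
  linarith

theorem ps_nonneg (a : Fin n → ℂ) (p : C3) : 0 ≤ psi a p :=
  mul_nonneg zero_le_two (Finset.sum_nonneg fun _ _ => Real.sqrt_nonneg _)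

theorem ps_zle (a : Fin n → ℂ) (p : C3) (j : Fin n) :
    2 * ‖p.2.2 - a j‖ ≤ psi a p ∧ 2 * |mu a p| ≤ psi a p :=
  ⟨by linarith [ps_single a p j, ps_norm a j (mu a p) p.2.2],
    by linarith [ps_single a p j, ps_abs a j (mu a p) p.2.2]⟩

theorem ps_prod (a : Fin n → ℂ) (p : C3) (m : ℝ) (hm : |m| = |mu a p|) :
    ∏ j, (rr a j (mu a p) p.2.2 + m) ≤ psi a p ^ n := by
  have h : ∏ j, (rr a j (mu a p) p.2.2 + m) ≤ ∏ _j : Fin n, psi a p := by
    refine Finset.prod_le_prod (fun j _ => ?_) fun j _ => ?_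
    · linarith [ps_abs a j (mu a p) p.2.2, neg_abs_le m]
    · linarith [ps_abs a j (mu a p) p.2.2, le_abs_self m, ps_single a p j]
  rwa [Finset.prod_const, Finset.card_univ, Fintype.card_fin] at h

theorem ps_xle (hM : MuF n) (a : Fin n → ℂ) (p : C3) (hp : p ∈ Xs a) :
    ‖p.1‖ ^ 2 ≤ psi a p ^ n ∧ ‖p.2.1‖ ^ 2 ≤ psi a p ^ n := by
  refine ⟨hM.plus a p hp ▸ ps_prod a p _ rfl, ?_⟩
  rw [← hM.minus a p hp]
  simpa only [sub_eq_add_neg] using ps_prod a p (-mu a p) (abs_neg _)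

theorem ps_cont (hM : MuF n) (a : Fin n → ℂ) : Continuous (psi a) := by
  have := hM.cont a
  unfold psi rr
  fun_prop

theorem ps_rot (hM : MuF n) (a : Fin n → ℂ) (ζ : ℂ) (σ : Equiv.Perm (Fin n)) (hζ : ‖ζ‖ = 1)
    (hσ : ∀ j, a (σ j) = ζ * a j) (p p' : C3) (h1 : ‖p'.1‖ = ‖p.1‖) (h2 : ‖p'.2.1‖ = ‖p.2.1‖)
    (h3 : p'.2.2 = ζ * p.2.2) : mu a p' = mu a p ∧ psi a p' = psi a p := by
  have hr : ∀ j m, rr a (σ j) m p'.2.2 = rr a j m p.2.2 := fun j m => by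
    unfold rr
    rw [h3, hσ, ← mul_sub, norm_mul, hζ, one_mul]
  have hm : mu a p' = mu a p := by
    refine hM.uniq a p' _ ?_
    rw [← Equiv.prod_comp σ fun j => rr a j (mu a p) p'.2.2 + mu a p,
      ← Equiv.prod_comp σ fun j => rr a j (mu a p) p'.2.2 - mu a p, h1, h2, ← hM.eq a p]
    simp only [hr]
  refine ⟨hm, ?_⟩
  unfold psi
  rw [hm, ← Equiv.sum_comp σ fun j => rr a j (mu a p) p'.2.2]
  simp only [hr]

theorem ps_swap (hM : MuF n) (a : Fin n → ℂ) (p : C3) :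
    mu a (swap p) = -mu a p ∧ psi a (swap p) = psi a p := by
  have hm : mu a (swap p) = -mu a p := by
    refine hM.uniq a _ _ ?_
    have h := hM.eq a p
    simp only [swap, ps_neg, sub_neg_eq_add, ← sub_eq_add_neg]
    linarith
  refine ⟨hm, ?_⟩
  unfold psi
  rw [hm]
  simp only [swap, ps_neg]

theorem ps_scale (hM : MuF n) (a : Fin n → ℂ) (c : ℝ) (hc : 0 < c) (p : C3) :
    psi (sc (c ^ 2) a) ((c : ℂ) ^ n * p.1, (c : ℂ) ^ n * p.2.1, (c : ℂ) ^ 2 * p.2.2) =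
      c ^ 2 * psi a p := by
  have hr : ∀ j m, rr (sc (c ^ 2) a) j (c ^ 2 * m) ((c : ℂ) ^ 2 * p.2.2) =
      c ^ 2 * rr a j m p.2.2 := fun j m => by
    unfold rr sc
    rw [Complex.ofReal_pow, ← mul_sub, norm_mul, norm_pow, Complex.norm_real,
      Real.norm_of_nonneg hc.le, mul_pow, mul_pow, ← mul_add, Real.sqrt_mul (by positivity),
      Real.sqrt_sq (by positivity)]
  have hn : ∀ x : ℂ, ‖(c : ℂ) ^ n * x‖ ^ 2 = (c ^ 2) ^ n * ‖x‖ ^ 2 := fun x => by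
    rw [norm_mul, norm_pow, Complex.norm_real, Real.norm_of_nonneg hc.le]
    ring
  have hm : mu (sc (c ^ 2) a) ((c : ℂ) ^ n * p.1, (c : ℂ) ^ n * p.2.1, (c : ℂ) ^ 2 * p.2.2) =
      c ^ 2 * mu a p := by
    refine hM.uniq _ _ _ ?_
    simp only [hr, hn, ← mul_add, ← mul_sub, Finset.prod_mul_distrib, Finset.prod_const,
      Finset.card_univ, Fintype.card_fin]
    rw [hM.eq a p]
  unfold psi
  rw [hm]
  simp only [hr, ← Finset.mul_sum]
  ring

theorem ps_closed (a : Fin n → ℂ) : IsClosed (Xs a) := by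
  unfold Xs Pz
  exact isClosed_eq (by fun_prop) (by fun_prop)

theorem ps_proper (hn : 1 ≤ n) (hM : MuF n) (a : Fin n → ℂ) (c : ℝ) :
    IsCompact {p ∈ Xs a | psi a p ≤ c} := by
  refine Metric.isCompact_of_isClosed_isBounded
    ((ps_closed a).inter (isClosed_le (ps_cont hM a) continuous_const)) ?_
  refine (Metric.isBounded_closedBall (x := (0 : C3))
    (r := |c| ^ n + 1 + |c| + ‖a ⟨0, hn⟩‖)).subset fun p hp => ?_
  have h0 := ps_nonneg a p
  have h1 : psi a p ≤ |c| := hp.2.trans (le_abs_self c)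
  have h2 : psi a p ^ n ≤ |c| ^ n := pow_le_pow_left₀ h0 h1 n
  obtain ⟨h3, h4⟩ := ps_xle hM a p hp.1
  have h5 := (ps_zle a p ⟨0, hn⟩).1
  have h6 := norm_le_norm_sub_add p.2.2 (a ⟨0, hn⟩)
  have h7 := norm_nonneg (a ⟨0, hn⟩)
  have h8 := abs_nonneg c
  have h9 : 0 ≤ |c| ^ n := pow_nonneg h8 n
  rw [mem_closedBall_zero_iff, Prod.norm_def, Prod.norm_def]
  refine max_le ?_ (max_le ?_ ?_)
  · nlinarith [sq_nonneg (‖p.1‖ - 1)]
  · nlinarith [sq_nonneg (‖p.2.1‖ - 1)]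
  · linarith

theorem ps_cone (hM : MuF n) (q : V) :
    psi (fun _ : Fin n => (0 : ℂ)) (q.1 ^ n, q.2 ^ n, q.1 * q.2) =
      n * (Complex.normSq q.1 + Complex.normSq q.2) := by
  have hr : ∀ j, rr (fun _ : Fin n => (0 : ℂ)) j ((‖q.1‖ ^ 2 - ‖q.2‖ ^ 2) / 2) (q.1 * q.2) =
      (‖q.1‖ ^ 2 + ‖q.2‖ ^ 2) / 2 := fun j => by
    unfold rr
    rw [sub_zero, norm_mul, Real.sqrt_eq_iff_mul_self_eq (by positivity) (by positivity)]
    ring
  have hm : mu (fun _ : Fin n => (0 : ℂ)) (q.1 ^ n, q.2 ^ n, q.1 * q.2) =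
      (‖q.1‖ ^ 2 - ‖q.2‖ ^ 2) / 2 := by
    refine hM.uniq _ _ _ ?_
    simp only [hr, Finset.prod_const, Finset.card_univ, Fintype.card_fin, norm_pow]
    have e1 : (‖q.1‖ ^ 2 + ‖q.2‖ ^ 2) / 2 + (‖q.1‖ ^ 2 - ‖q.2‖ ^ 2) / 2 = ‖q.1‖ ^ 2 := by ring
    have e2 : (‖q.1‖ ^ 2 + ‖q.2‖ ^ 2) / 2 - (‖q.1‖ ^ 2 - ‖q.2‖ ^ 2) / 2 = ‖q.2‖ ^ 2 := by ring
    rw [e1, e2]
    ring
  unfold psi
  rw [hm]
  simp only [hr, Finset.sum_const, Finset.card_univ, Fintype.card_fin, nsmul_eq_mul,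
    Complex.normSq_eq_norm_sq]
  ring

/-- Row PS. -/
theorem sps : SPS := fun n hn hM =>
  { cont := ps_cont hM
    nonneg := ps_nonneg
    posx := fun a p hp h => by
      refine (ps_nonneg a p).lt_of_ne fun h0 => ?_
      have h1 := (ps_xle hM a p hp).1
      rw [← h0, zero_pow (by omega)] at h1
      exact absurd h1 (not_le.2 (pow_pos (norm_pos_iff.2 h) 2))
    pos := fun a h2 ha => by
      refine ⟨‖a ⟨0, by omega⟩ - a ⟨1, by omega⟩‖, ?_, fun p => ?_⟩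
      · exact norm_pos_iff.2 (sub_ne_zero.2 fun h => by simpa using ha h)
      · have h1 := (ps_zle a p ⟨0, by omega⟩).1
        have h3 := (ps_zle a p ⟨1, by omega⟩).1
        have h4 := norm_sub_le_norm_sub_add_norm_sub (a ⟨0, by omega⟩) p.2.2 (a ⟨1, by omega⟩)
        rw [norm_sub_rev (a ⟨0, by omega⟩) p.2.2] at h4
        linarith
    circ := fun a p p' h1 h2 h3 =>
      ps_rot hM a 1 (Equiv.refl _) norm_one (fun j => (one_mul _).symm) p p' h1 h2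
        (h3.trans (one_mul _).symm)
    swap := ps_swap hM
    rot := fun a ζ σ h1 h2 => ps_rot hM a ζ σ h1 h2
    scale := ps_scale hM
    closed := ps_closed
    proper := ps_proper hn hM
    zle := ps_zle
    xle := ps_xle hM
    cone := ps_cone hM }

/-- One centre. -/
theorem sonec : SONEC := fun hM a p hp => by
  have h1 := hM.plus a p hp
  have h2 := hM.minus a p hp
  unfold psi
  rw [Fin.prod_univ_one] at h1 h2
  rw [Fin.sum_univ_one]
  linarith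

end Pool.Agent.MP_67f0e4_gt.D1
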