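import Pool.Agent.MP_67f0e4_gt.D1.Spec

/-! Rows RT and KF: roots of unity as centres. -/

open scoped ContDiff Topology ComplexConjugate
open Filter Set

namespace Pool.Agent.MP_67f0e4_gt.D1

open K

theorem rt_pow (n : ℕ) (j : Fin n) :
    rt n j = Complex.exp (2 * Real.pi * Complex.I / n) ^ (j : ℕ) := by
  rw [rt, ← Complex.exp_nat_mul]
  exact congrArg Complex.exp (by ring)

theorem rt_sc_one {n : ℕ} (a : Fin n → ℂ) : sc 1 a = a := by
  funext j
  simp [sc]

theorem srt : SRT := by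
  intro n hn
  have h0 : n ≠ 0 := by omega
  have : NeZero n := ⟨h0⟩
  have hp := Complex.isPrimitiveRoot_exp n h0
  have hinj : Function.Injective (rt n) := fun i j e => by
    rw [rt_pow, rt_pow] at e
    exact Fin.ext (hp.pow_inj i.2 j.2 e)
  have hone : ∀ j, rt n j ^ n = 1 := fun j => by
    rw [rt_pow, pow_right_comm, hp.pow_eq_one, one_pow]
  have hpz : ∀ (t : ℝ) (z : ℂ), Pz (sc t (rt n)) z = z ^ n - (t : ℂ) ^ n := fun t z => by
    have h1 := congrArg (Polynomial.eval z)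
      (X_pow_sub_C_eq_prod hp (α := (t : ℂ)) (Nat.pos_of_ne_zero h0) rfl)
    rw [Polynomial.eval_sub, Polynomial.eval_pow, Polynomial.eval_X, Polynomial.eval_C,
      Polynomial.eval_prod, Finset.prod_range] at h1
    rw [h1, Pz]
    refine Finset.prod_congr rfl fun j _ => ?_
    rw [Polynomial.eval_sub, Polynomial.eval_X, Polynomial.eval_C, sc, rt_pow, mul_comm]
  have hpz1 : ∀ z : ℂ, Pz (rt n) z = z ^ n - 1 := fun z => by
    have h1 := hpz 1 z
    rwa [rt_sc_one, Complex.ofReal_one, one_pow] at h1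
  refine ⟨hinj, fun j => Complex.norm_eq_one_of_pow_eq_one (hone j) h0, hpz, hpz1, ?_,
    fun ζ hζ => ?_⟩
  · ext p
    change p.1 * p.2.1 = Pz (rt n) p.2.2 ↔ p.1 * p.2.1 = p.2.2 ^ n - 1
    rw [hpz1]
  · have h1 : ∀ j, ∃ i : Fin n, rt n i = ζ * rt n j := fun j => by
      obtain ⟨i, hi, e⟩ := hp.eq_pow_of_pow_eq_one (ξ := ζ * rt n j)
        (by rw [mul_pow, hζ, hone, one_mul])
      exact ⟨⟨i, hi⟩, (rt_pow n ⟨i, hi⟩).trans e⟩
    choose s hs using h1
    have z0 : ζ ≠ 0 := fun e => by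
      rw [e, zero_pow h0] at hζ
      exact zero_ne_one hζ
    have h2 : Function.Injective s := fun i j e =>
      hinj (mul_left_cancel₀ z0 (by rw [← hs, ← hs, e]))
    exact ⟨Equiv.ofBijective s (Finite.injective_iff_bijective.1 h2), hs⟩

theorem skf : SKF := by
  intro n hn hM hP hK hR
  have h0 : n ≠ 0 := by omega
  have n0 : (n : ℝ) ≠ 0 := Nat.cast_ne_zero.2 h0
  refine ⟨hK.potsm _, fun c hc t x z hx => ?_, fun q hq => ?_, fun W => ?_,
    fun ζ hζ x z _ => ?_, fun t u x z hu _ => ?_⟩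
  · have h1 : sc (c ^ 2 * t) (rt n) = sc (c ^ 2) (sc t (rt n)) := by
      funext j
      simp only [sc, Complex.ofReal_mul, mul_assoc]
    have c0 : (c : ℂ) ≠ 0 := Complex.ofReal_ne_zero.2 hc.ne'
    have h2 : sx (sc (c ^ 2 * t) (rt n)) ((c : ℂ) ^ n * x, (c : ℂ) ^ 2 * z) =
        ((c : ℂ) ^ n * (sx (sc t (rt n)) (x, z)).1, (c : ℂ) ^ n * (sx (sc t (rt n)) (x, z)).2.1,
          (c : ℂ) ^ 2 * (sx (sc t (rt n)) (x, z)).2.2) := by
      simp only [sx, hR.pz]
      refine Prod.ext rfl (Prod.ext ?_ rfl)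
      simp only [Complex.ofReal_mul, Complex.ofReal_pow, mul_pow]
      field_simp
      ring
    rw [pot, pot, h2, h1, hP.scale _ c hc]
  · have h1 : sc 0 (rt n) = fun _ => 0 := by
      funext j
      simp [sc]
    have h2 : sx (sc 0 (rt n)) (q.1 ^ n, q.1 * q.2) = (q.1 ^ n, q.2 ^ n, q.1 * q.2) := by
      simp only [sx, hR.pz]
      refine Prod.ext rfl (Prod.ext ?_ rfl)
      simp only [Complex.ofReal_zero, zero_pow h0, sub_zero, mul_pow]
      exact mul_div_cancel_left₀ _ (pow_ne_zero _ hq)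
    rw [pot, h2, h1, hP.cone]
  · have e0 := Complex.exp_ne_zero W
    have h1 : ∀ j, rr (rt n) j (Real.sinh (2 * W.re / n)) 0 = Real.cosh (2 * W.re / n) := fun j => by
      rw [rr, zero_sub, norm_neg, hR.norm, one_pow, ← Real.cosh_sq,
        Real.sqrt_sq (Real.cosh_pos _).le]
    have h2 : mu (rt n) (sx (rt n) (Complex.exp W, 0)) = Real.sinh (2 * W.re / n) := by
      refine hM.uniqx _ _ (mul_div_cancel₀ _ e0) e0 _ ?_
      change ∏ j, (rr (rt n) j (Real.sinh (2 * W.re / n)) 0 + Real.sinh (2 * W.re / n)) =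
        ‖Complex.exp W‖ ^ 2
      simp only [h1, Real.cosh_add_sinh, Finset.prod_const, Finset.card_univ, Fintype.card_fin]
      rw [Complex.norm_exp, ← Real.exp_nat_mul, ← Real.exp_nat_mul, mul_div_cancel₀ _ n0]
      norm_num
    rw [pot, rt_sc_one, psi, h2]
    change 2 * ∑ j, rr (rt n) j (Real.sinh (2 * W.re / n)) 0 = _
    simp only [h1, Finset.sum_const, Finset.card_univ, Fintype.card_fin, nsmul_eq_mul]
    ring
  · obtain ⟨σ, hσ⟩ := hR.perm ζ hζ
    rw [pot, pot, rt_sc_one]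
    refine (hP.rot (rt n) ζ σ (Complex.norm_eq_one_of_pow_eq_one hζ h0) hσ (sx (rt n) (x, z))
      (sx (rt n) (x, ζ * z)) rfl ?_ rfl).2
    simp only [sx, hR.pz1, mul_pow, hζ, one_mul]
  · rw [pot, pot]
    refine (hP.circ _ (sx (sc t (rt n)) (x, z)) (sx (sc t (rt n)) (u * x, z)) ?_ ?_ rfl).2
    · simp only [sx, norm_mul, hu, one_mul]
    · simp only [sx, norm_div, norm_mul, hu, one_mul]

end Pool.Agent.MP_67f0e4_gt.D1
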