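import Pool.Agent.MP_67f0e4_gt.K.Spec
import Pool.Agent.MP_67f0e4_gt.D1.ROVER
import Pool.Agent.MP_67f0e4_gt.D1.RMU
import Pool.Agent.MP_67f0e4_gt.D1.RPS
import Pool.Agent.MP_67f0e4_gt.D1.RKS
import Pool.Agent.MP_67f0e4_gt.D1.RRT
import Pool.Agent.MP_67f0e4_gt.D2.RCONN
import Pool.Agent.MP_67f0e4_gt.D2.RDEC
import Pool.Agent.MP_67f0e4_gt.D2.REND
import Pool.Agent.MP_67f0e4_gt.D2.RGH
import Pool.Agent.MP_67f0e4_gt.D2.RGS
import Pool.Agent.MP_67f0e4_gt.D2.RINJ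
import Pool.Agent.MP_67f0e4_gt.D2.RLAM
import Pool.Agent.MP_67f0e4_gt.D2.RLEV
import Pool.Agent.MP_67f0e4_gt.D2.RLIFT
import Pool.Agent.MP_67f0e4_gt.D2.ROPEN
import Pool.Agent.MP_67f0e4_gt.D2.RPHI
import Pool.Agent.MP_67f0e4_gt.D2.RSUR
import Pool.Agent.MP_67f0e4_gt.D2.RTS

/-! Block D: the statements of the master specification, from the rows. -/

open scoped ContDiff Topology ComplexConjugate
open Filter Set

namespace Pool.Agent.MP_67f0e4_gt.D1

open K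

theorem an_eq (n : ℕ) : an n = rt n := rfl

theorem main_sum {n : ℕ} (hn : 2 ≤ n) (hr : RtF n) : ∑ j, rt n j = 0 := by
  have h0 : (0 : ℕ) < n := by omega
  have h1 : (1 : ℕ) < n := by omega
  have e0 : rt n ⟨0, h0⟩ = 1 := by simp [rt]
  have hne : rt n ⟨1, h1⟩ ≠ 1 := fun h => by
    have := hr.inj (h.trans e0.symm)
    simp at this
  have hp : rt n ⟨1, h1⟩ ^ n = 1 := by
    have h := hr.pz1 (rt n ⟨1, h1⟩)
    rw [Pz, Finset.prod_eq_zero (Finset.mem_univ ⟨1, h1⟩) (sub_self _)] at h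
    exact (sub_eq_zero.1 h.symm)
  obtain ⟨σ, hσ⟩ := hr.perm _ hp
  have h2 : ∑ j, rt n j = rt n ⟨1, h1⟩ * ∑ j, rt n j := by
    rw [Finset.mul_sum, ← Equiv.sum_comp σ]
    simp only [hσ]
  have h3 : (rt n ⟨1, h1⟩ - 1) * ∑ j, rt n j = 0 := by linear_combination -h2
  exact (mul_eq_zero.1 h3).resolve_left (sub_ne_zero.2 hne)

theorem main_one {n : ℕ} (hn : 2 ≤ n) (hr : RtF n) (p : C3) : 1 ≤ psi (rt n) p := by
  have h1 : ∑ j, conj (rt n j) * (p.2.2 - rt n j) = -(n : ℂ) := by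
    have e : ∀ j, conj (rt n j) * (p.2.2 - rt n j) = conj (rt n j) * p.2.2 - 1 := fun j => by
      rw [mul_sub, Complex.conj_mul', hr.norm j]
      simp
    simp only [e, Finset.sum_sub_distrib, ← Finset.sum_mul, ← map_sum, main_sum hn hr]
    simp
  have h2 : (n : ℝ) ≤ ∑ j, rr (rt n) j (mu (rt n) p) p.2.2 := by
    have h3 : (n : ℝ) = ‖∑ j, conj (rt n j) * (p.2.2 - rt n j)‖ := by
      rw [h1]
      simp
    rw [h3]
    refine (norm_sum_le _ _).trans (Finset.sum_le_sum fun j _ => ?_)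
    rw [norm_mul, Complex.norm_conj, hr.norm j, one_mul]
    exact Real.le_sqrt_of_sq_le (by nlinarith [sq_nonneg (mu (rt n) p)])
  have h4 : (2 : ℝ) ≤ n := by exact_mod_cast hn
  rw [psi]
  linarith

theorem roots_main : ROOTS := fun n hn => ⟨(srt n hn).inj, (srt n hn).surf⟩

theorem psi1_main : PSI1 := sonec (smu 1 le_rfl) a0

theorem ale_main (hgrad : SGRAD) (hsx : SSX) (hcurv : SCURV) : ALE := by
  intro n hn _ hP
  have h1 : 1 ≤ n := by omega
  have hmu := smu n h1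
  have hps := sps n h1 hmu
  have hks := sks n h1 hmu
  have hrt := srt n h1
  have hkf := skf n h1 hmu hps hks hrt
  have hinf := sinf D2.sgam D2.sinj D2.ssur D2.sphi D2.slev D2.sgs D2.sgz D2.sgh
    (D2.sdec D2.sscale) hsx sover n h1 (D2.slam n h1) hps hrt hkf
  have hq : QB (rt n) := by
    obtain ⟨C, hC⟩ := hP.qb
    exact ⟨C, fun N U h u hu => ⟨(hC N U h u hu).2, (hC N U h u hu).1⟩⟩
  exact ⟨ale_of D2.sone hgrad hsx hcurv n (by omega) hps hrt hkf ⟨hP.rf, hq⟩ hinf,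
    D2.sconn n h1, stop (D2.send D2.sopen (D2.slift D2.sopen)) D2.sts n hn hinf,
    fun p _ => main_one (by omega) hrt p⟩

theorem main_cov {n : ℕ} (a : Fin n → ℂ) (q : V) : cov a q ∈ Xs a := by
  show Complex.exp (n * q.1) * (Pz a (q.2 * Complex.exp (2 * q.1)) * Complex.exp (-(n * q.1))) =
    Pz a (q.2 * Complex.exp (2 * q.1))
  rw [mul_left_comm, ← Complex.exp_add, add_neg_cancel, Complex.exp_zero, mul_one]

theorem pot_main (hrf : ∀ n : ℕ, 1 ≤ n → ∀ a : Fin n → ℂ, Function.Injective a →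
    RFlat (Xs a) (psi a) ∧ QB a) (herr : SERR) : POT := by
  intro n a h1 ha _
  have hmu := smu n h1
  have hps := sps n h1 hmu
  have hks := sks n h1 hmu
  obtain ⟨hr, C, hC⟩ := hrf n h1 a ha
  obtain ⟨e1, e2⟩ := herr D2.sscale n h1 hps hks a
  refine ⟨⟨hr, ⟨C, fun N U h u hu => ⟨(hC N U h u hu).2, (hC N U h u hu).1⟩⟩,
    fun p _ => hps.nonneg a p, hps.proper a⟩, e1,
    fun q => hps.posx a _ (main_cov a q) (Complex.exp_ne_zero _), fun p _ => (hps.swap a p).2,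
    fun C0 Ξ l => ?_⟩
  obtain ⟨M, hM⟩ := e2 C0 Ξ l
  exact ⟨M, fun q h h' => hM q.1 q.2 h h'⟩

end Pool.Agent.MP_67f0e4_gt.D1
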