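import Pool.Agent.MP_67f0e4_gt.D1.Spec2

/-! Block D from its row statements. -/

open scoped ContDiff Topology
open Filter Set

namespace Pool.Agent.MP_67f0e4_gt.D1

open K

theorem sc_one {n : ℕ} (a : Fin n → ℂ) : sc 1 a = a := by
  funext j
  simp [sc]

theorem ale_of (hone : D2.SONE) (hgrad : SGRAD) (hsx : SSX) (hcurv : SCURV) (n : ℕ) (hn : 2 ≤ n)
    (hps : PsF n) (hrt : RtF n) (hkf : D2.KF n (pot (rt n)))
    (hrf : RFlat (Xs (rt n)) (psi (rt n)) ∧ QB (rt n)) (hinf : InfF n) :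
    H.AleData (H.surf n) (psi (rt n)) n := by
  obtain ⟨Γ, R, Θ, G, hE, hc, hcard, hI⟩ := hinf
  have hs := hrt.surf
  refine ⟨hs ▸ hrf.1, fun p _ => hps.nonneg _ p, fun c => hs ▸ hps.proper _ c,
    ⟨1, hs ▸ hgrad n _ hrf.1 hrf.2⟩, ?_, hone _ Γ R Θ hE,
    Γ, R, 2, Θ, G, hE.pos, two_pos, hE.fin, hE.free, hc, hcard, hI⟩
  refine ⟨fun q => sx (rt n) (Complex.exp q.1, q.2), univ, hs ▸ (hsx n _).2.2, 0, mem_univ _, ?_⟩
  have h := hcurv n _ hn hkf
  have e : (fun q : V => pot (rt n) 1 (Complex.exp q.1, q.2)) =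
      psi (rt n) ∘ fun q : V => sx (rt n) (Complex.exp q.1, q.2) := by
    funext q
    simp only [pot, sc_one, Function.comp]
  rwa [e] at h

end Pool.Agent.MP_67f0e4_gt.D1
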