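import Pool.Agent.MP_67f0e4_gt.D1.Spec

/-! Row CEN: near a centre the potential extends smoothly to the ambient space. -/

open scoped ContDiff Topology
open Filter Set

namespace Pool.Agent.MP_67f0e4_gt.D1

open K

noncomputable section

variable {n : ℕ}

/-- The product of the other factors, with sign `s`. -/
def cenA (a : Fin n → ℂ) (j : Fin n) (s : ℝ) (v : C3 × ℝ) : ℝ :=
  ∏ i ∈ Finset.univ.erase j, (rr a i v.2 v.1.2.2 + s * v.2)

theorem cen_rr (a : Fin n → ℂ) (ha : Function.Injective a) {i j : Fin n} (hij : i ≠ j) :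
    ContDiffAt ℝ ∞ (fun v : C3 × ℝ => rr a i v.2 v.1.2.2) ((0, 0, a j), 0) ∧
      0 < rr a i 0 (a j) := by
  have h1 : 0 < ‖a j - a i‖ := norm_pos_iff.2 (sub_ne_zero.2 fun h => hij (ha h).symm)
  have h2 : (0 : ℝ) < 0 ^ 2 + ‖a j - a i‖ ^ 2 := by positivity
  refine ⟨?_, Real.sqrt_pos.2 h2⟩
  have h3 : ContDiff ℝ ∞ (fun v : C3 × ℝ => v.2 ^ 2 + ‖v.1.2.2 - a i‖ ^ 2) :=
    (contDiff_snd.pow 2).add
      (ContDiff.norm_sq ℝ ((contDiff_fst.snd.snd).sub contDiff_const))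
  exact h3.contDiffAt.sqrt h2.ne'

theorem cen_A (a : Fin n → ℂ) (ha : Function.Injective a) (j : Fin n) (s : ℝ) :
    ContDiffAt ℝ ∞ (cenA a j s) ((0, 0, a j), 0) ∧ cenA a j s ((0, 0, a j), 0) ≠ 0 := by
  constructor
  · refine contDiffAt_prod fun i hi => ?_
    exact (cen_rr a ha (Finset.ne_of_mem_erase hi)).1.add (contDiffAt_const.mul contDiffAt_snd)
  · refine Finset.prod_ne_zero_iff.2 fun i hi => ?_
    have h := (cen_rr a ha (Finset.ne_of_mem_erase hi)).2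
    simpa using h.ne'

theorem scen : SCEN := by
  intro n _ hM a ha j
  have hx : ContDiffAt ℝ ∞ (fun v : C3 × ℝ => ‖v.1.1‖ ^ 2 / cenA a j 1 v) ((0, 0, a j), 0) :=
    (ContDiff.norm_sq ℝ contDiff_fst.fst).contDiffAt.div (cen_A a ha j 1).1 (cen_A a ha j 1).2
  have hy : ContDiffAt ℝ ∞ (fun v : C3 × ℝ => ‖v.1.2.1‖ ^ 2 / cenA a j (-1) v)
      ((0, 0, a j), 0) :=
    (ContDiff.norm_sq ℝ contDiff_fst.snd.fst).contDiffAt.div (cen_A a ha j (-1)).1
      (cen_A a ha j (-1)).2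
  let F : C3 × ℝ → ℝ := fun v =>
    2 * v.2 - ‖v.1.1‖ ^ 2 / cenA a j 1 v + ‖v.1.2.1‖ ^ 2 / cenA a j (-1) v
  let G : C3 × ℝ → ℝ := fun v => 2 * ∑ i ∈ Finset.univ.erase j, rr a i v.2 v.1.2.2 +
    ‖v.1.1‖ ^ 2 / cenA a j 1 v + ‖v.1.2.1‖ ^ 2 / cenA a j (-1) v
  have hF : ContDiffAt ℝ ∞ F ((0, 0, a j), 0) :=
    ((contDiffAt_const.mul contDiffAt_snd).sub hx).add hy
  have hG : ContDiffAt ℝ ∞ G ((0, 0, a j), 0) :=
    ((contDiffAt_const.mul (ContDiffAt.sum fun i hi =>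
      (cen_rr a ha (Finset.ne_of_mem_erase hi)).1)).add hx).add hy
  have hn : (∞ : WithTop ℕ∞) ≠ 0 := by simp
  have hd : fderiv ℝ F ((0, 0, a j), 0) ∘L .inr ℝ C3 ℝ = (2 : ℝ) • ContinuousLinearMap.id ℝ ℝ := by
    have h1 := (hF.differentiableAt hn).hasFDerivAt.comp (0 : ℝ)
      (hasFDerivAt_prodMk_right (𝕜 := ℝ) ((0, 0, a j) : C3) (0 : ℝ))
    have h2 : (F ∘ fun m : ℝ => (((0, 0, a j) : C3), m)) = fun m : ℝ => (2 : ℝ) • m := by
      funext m
      simp [F]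
    rw [h2] at h1
    exact h1.unique ((hasFDerivAt_id (0 : ℝ)).const_smul (2 : ℝ))
  have hi : (fderiv ℝ F ((0, 0, a j), 0) ∘L .inr ℝ C3 ℝ).IsInvertible := by
    rw [hd]
    refine ContinuousLinearMap.IsInvertible.of_inverse
      (g := (2⁻¹ : ℝ) • ContinuousLinearMap.id ℝ ℝ) ?_ ?_
    · ext
      simp
    · ext
      simp
  have h0 : mu a (0, 0, a j) = 0 := hM.uniq a _ 0 (by simp)
  have hT : Tendsto (fun p : C3 => (p, mu a p)) (𝓝 (0, 0, a j)) (𝓝 ((0, 0, a j), 0)) := by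
    have h := (continuous_id.prodMk (hM.cont a)).tendsto (0, 0, a j)
    rwa [h0] at h
  refine ⟨fun p => G (p, hF.implicitFunction hn hi p), ?_, ?_⟩
  · have h1 : hF.implicitFunction hn hi (0, 0, a j) = 0 := hF.implicitFunction_apply_self hn hi
    have h2 : ContDiffAt ℝ ∞ G ((0, 0, a j), hF.implicitFunction hn hi (0, 0, a j)) := by
      rw [h1]
      exact hG
    exact h2.comp ((0, 0, a j) : C3) (f := fun p => (p, hF.implicitFunction hn hi p))
      (contDiffAt_id.prodMk (hF.contDiffAt_implicitFunction hn hi))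
  · have e1 := hT.eventually (hF.eventually_apply_eq_iff_implicitFunction hn hi)
    have e2 := hT.eventually ((cen_A a ha j 1).1.continuousAt.eventually_ne (cen_A a ha j 1).2)
    have e3 := hT.eventually
      ((cen_A a ha j (-1)).1.continuousAt.eventually_ne (cen_A a ha j (-1)).2)
    filter_upwards [nhdsWithin_le_nhds e1, nhdsWithin_le_nhds e2, nhdsWithin_le_nhds e3,
      self_mem_nhdsWithin] with p h1 h2 h3 hp
    have h4 : ‖p.1‖ ^ 2 / cenA a j 1 (p, mu a p) = rr a j (mu a p) p.2.2 + mu a p := by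
      rw [div_eq_iff h2, ← hM.plus a p hp, ← Finset.mul_prod_erase _ _ (Finset.mem_univ j)]
      simp [cenA]
    have h5 : ‖p.2.1‖ ^ 2 / cenA a j (-1) (p, mu a p) = rr a j (mu a p) p.2.2 - mu a p := by
      rw [div_eq_iff h3, ← hM.minus a p hp, ← Finset.mul_prod_erase _ _ (Finset.mem_univ j)]
      simp [cenA, sub_eq_add_neg]
    have h6 : F (p, mu a p) = F ((0, 0, a j), 0) := by
      simp only [F, h4, h5]
      simp
      ring
    have h7 : hF.implicitFunction hn hi p = mu a p := h1.1 h6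
    rw [h7]
    simp only [G, h4, h5, psi]
    rw [← Finset.add_sum_erase _ _ (Finset.mem_univ j)]
    ring

end

end Pool.Agent.MP_67f0e4_gt.D1
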