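import Pool.Agent.MP_67f0e4_gt.D1.Spec2
import Pool.Agent.MP_67f0e4_gt.K.Chain

/-! Block D: change of holomorphic coordinates. -/

open scoped ContDiff Topology
open Filter Set

namespace Pool.Agent.MP_67f0e4_gt.D1

open K

noncomputable section

theorem ch2_dt {T : V → V} {u : V} (h : DifferentiableAt ℂ T u) :
    dt (fderiv ℂ (fun w => (T w).1) u) (fderiv ℂ (fun w => (T w).2) u) =
      cdet (fderiv ℂ T u) := by
  rw [h.hasFDerivAt.fst.fderiv, h.hasFDerivAt.snd.fderiv, dt, cdet, e0, e2]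
  simp only [ContinuousLinearMap.comp_apply, ContinuousLinearMap.coe_fst',
    ContinuousLinearMap.coe_snd']
  ring

theorem ch2_lin (l : V →L[ℝ] ℝ) (x : V) : lv l x = 0 := by
  have h : ∀ w, D w l = fun _ => l w := fun w => funext fun y => D_of_has l.hasFDerivAt w
  refine Hm_ext ?_ ?_ ?_ ?_ <;> simp [lv, lev, h, D_const]

theorem ch2_plh {J : V → ℂ} {c : ℝ} {u : V} (hJ : ContDiffAt ℂ ∞ J u) (h0 : J u ≠ 0)
    (hc : 0 < c) : lv (fun w => Real.log (c * ‖J w‖ ^ 2)) u = 0 := by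
  let l : V →L[ℝ] ℝ := Complex.reCLM.comp (ContinuousLinearMap.fst ℝ ℂ ℂ)
  let T : V → V := fun w => (Complex.log (J w / J u), 0)
  have h1 : J u / J u ∈ Complex.slitPlane := by
    rw [div_self h0]
    exact Complex.one_mem_slitPlane
  have h2 : ContDiffAt ℂ 2 (fun w => J w / J u) u := (hJ.of_le two_le_inf).div_const _
  have h3 : ContDiffAt ℂ 2 (fun w => Complex.log (J w / J u)) u :=
    ContDiffAt.comp (g := Complex.log) (f := fun w => J w / J u) u (Complex.contDiffAt_log h1) h2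
  have hT : ContDiffAt ℂ 2 T u := h3.prodMk contDiffAt_const
  have e1 : (fun w => Real.log (c * ‖J w‖ ^ 2)) =ᶠ[𝓝 u]
      fun w => 2 * (l ∘ T) w + Real.log (c * ‖J u‖ ^ 2) := by
    filter_upwards [hJ.continuousAt.eventually_ne h0] with w hw
    have n1 := norm_ne_zero_iff.2 hw
    have n2 := norm_ne_zero_iff.2 h0
    have e2 : (l ∘ T) w = Real.log ‖J w‖ - Real.log ‖J u‖ := by
      rw [← Real.log_div n1 n2, ← norm_div, ← Complex.log_re]
      rfl
    rw [e2, Real.log_mul hc.ne' (pow_ne_zero 2 n1), Real.log_mul hc.ne' (pow_ne_zero 2 n2),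
      Real.log_pow, Real.log_pow]
    push_cast
    ring
  rw [lv_congr e1, lv_add_const, lv_const_mul, lv_hol hT l.contDiff.contDiffAt, ch2_lin]
  refine qf_ext fun v => ?_
  rw [qf_smul, qf_pb, qf_zero, qf_zero, mul_zero]

theorem sch2 : SCH2 where
  det := fun f T u hf hT => by
    rw [ch2_dt (hT.differentiableAt (by simp)), ← hdet_pb, ← lv_hol (hT.of_le two_le_inf) hf]
    rfl
  mix := fun f T u hf hT => by
    rw [ch2_dt (hT.differentiableAt (by simp)), ← hmix_pb, ← lv_hol (hT.of_le two_le_inf) hf,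
      ← rk_hol (hT.differentiableAt (by simp)) (hf.differentiableAt (by norm_num))]
    rfl
  qf := fun f T u hf hT v => by
    rw [← qf_pb, ← lv_hol (hT.of_le two_le_inf) hf]
    rfl
  germ := fun _ _ _ h => ⟨lv_congr h, rk_congr h⟩
  cont := fun _ _ h => ⟨(lv_smooth h).continuousAt, (rk_smooth h).continuousAt⟩
  plh := fun _ _ _ hJ h0 hc => ch2_plh hJ h0 hc
  posdet := fun g hg hd => by
    obtain ⟨h0, -, -⟩ := nn_iff.1 hg
    refine pos_iff.2 ⟨h0.lt_of_ne fun h => ?_, hd⟩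
    rw [hdet, ← h] at hd
    nlinarith [sq_nonneg (g 2), sq_nonneg (g 3)]

end

end Pool.Agent.MP_67f0e4_gt.D1
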