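import Pool.Agent.MP_67f0e4_gt.D1.Spec2
import Pool.Agent.MP_67f0e4_gt.K.Chain

/-! Block D: non-zero curvature along `z = 0`, and the standard parametrisations. -/

open scoped ContDiff Topology ComplexConjugate
open Filter Set

namespace Pool.Agent.MP_67f0e4_gt.D1

open K

noncomputable section

theorem curv_line {F : V → ℝ} {w : ℂ} (hF : DifferentiableAt ℝ F (w, 0)) (c : ℂ) :
    D ((c, 0) : V) F (w, 0) = D c (fun u : ℂ => F (u, 0)) w := by
  have h1 : HasFDerivAt (fun u : ℂ => ((u, 0) : V)) (ContinuousLinearMap.inl ℝ ℂ ℂ) w :=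
    (ContinuousLinearMap.inl ℝ ℂ ℂ).hasFDerivAt
  have h2 := D_of_has (HasFDerivAt.comp (f := fun u : ℂ => ((u, 0) : V)) w hF.hasFDerivAt h1) c
  exact h2.symm

theorem curv_re (b : ℝ) (w : ℂ) :
    HasFDerivAt (fun u : ℂ => b * u.re) (b • Complex.reCLM) w :=
  Complex.reCLM.hasFDerivAt.const_mul b

theorem curv_cosh (a b : ℝ) (c : ℂ) :
    D c (fun u : ℂ => a * Real.cosh (b * u.re)) =
      fun u : ℂ => a * b * c.re * Real.sinh (b * u.re) := by
  funext w
  have h := D_of_has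
    (((Real.hasDerivAt_cosh (b * w.re)).comp_hasFDerivAt w (curv_re b w)).const_mul a) c
  refine h.trans ?_
  simp only [smul_apply, Complex.reCLM_apply, smul_eq_mul]
  ring

theorem curv_sinh (a b : ℝ) (c : ℂ) :
    D c (fun u : ℂ => a * Real.sinh (b * u.re)) =
      fun u : ℂ => a * b * c.re * Real.cosh (b * u.re) := by
  funext w
  have h := D_of_has
    (((Real.hasDerivAt_sinh (b * w.re)).comp_hasFDerivAt w (curv_re b w)).const_mul a) c
  refine h.trans ?_
  simp only [smul_apply, Complex.reCLM_apply, smul_eq_mul]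
  ring

theorem curv_normal {f : V → ℝ} (hf : ContDiff ℝ ∞ f) {ζ : ℂ} (hζ : ζ ≠ 1)
    (hr : ∀ w z : ℂ, f (w, ζ * z) = f (w, z)) (w d : ℂ) : D ((0, d) : V) f (w, 0) = 0 := by
  have hd : DifferentiableAt ℝ f (w, 0) := hf.differentiable (by simp) _
  set c : ℂ := d / (ζ - 1) with hc
  have hz : ζ - 1 ≠ 0 := sub_ne_zero.2 hζ
  have hdc : d = ζ * c - c := by rw [hc]; field_simp
  have h1 : HasFDerivAt (fun z : ℂ => ((w, z) : V)) (ContinuousLinearMap.inr ℝ ℂ ℂ) 0 :=
    hasFDerivAt_prodMk_right w 0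
  have h2 : HasFDerivAt (fun z : ℂ => ζ * z) (ζ • ContinuousLinearMap.id ℝ ℂ) 0 :=
    (hasFDerivAt_id (𝕜 := ℝ) (0 : ℂ)).const_mul ζ
  have h3 : HasFDerivAt (fun z : ℂ => f (w, z))
      ((fderiv ℝ f (w, 0)).comp (ContinuousLinearMap.inr ℝ ℂ ℂ)) 0 :=
    HasFDerivAt.comp (f := fun z : ℂ => ((w, z) : V)) 0 hd.hasFDerivAt h1
  have h3' : HasFDerivAt (fun z : ℂ => f (w, z))
      ((fderiv ℝ f (w, 0)).comp (ContinuousLinearMap.inr ℝ ℂ ℂ)) (ζ * 0) := by
    rw [mul_zero]; exact h3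
  have h4 := HasFDerivAt.comp (f := fun z : ℂ => ζ * z) 0 h3' h2
  have h5 : ((fun z : ℂ => f (w, z)) ∘ fun z : ℂ => ζ * z) = fun z : ℂ => f (w, z) :=
    funext fun z => hr w z
  rw [h5] at h4
  have h6 := congrArg (fun L : ℂ →L[ℝ] ℝ => L c) (h4.unique h3)
  have h7 : fderiv ℝ f (w, 0) (0, ζ * c) = fderiv ℝ f (w, 0) (0, c) := h6
  have h8 : ((0, d) : V) = (0, ζ * c) - (0, c) := by rw [hdc]; simp
  rw [D, h8, map_sub, h7, sub_self]

theorem curv_root {n : ℕ} (hn : 2 ≤ n) : ∃ ζ : ℂ, ζ ^ n = 1 ∧ ζ ≠ 1 := by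
  have h := Complex.isPrimitiveRoot_exp n (by omega)
  exact ⟨_, h.pow_eq_one, h.ne_one (by omega)⟩

theorem scurv : SCURV := by
  intro n pot hn hK
  set f : V → ℝ := fun q : V => pot 1 (Complex.exp q.1, q.2) with hfd
  have hn0 : (n : ℝ) ≠ 0 := by
    have : n ≠ 0 := by omega
    exact_mod_cast this
  have hf : ContDiff ℝ ∞ f := by
    have h1 : ContDiff ℝ ∞ (fun q : V => (((1 : ℝ), (Complex.exp q.1, q.2)) : ℝ × V)) :=
      contDiff_const.prodMk ((Complex.contDiff_exp.comp contDiff_fst).prodMk contDiff_snd)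
    exact hK.smooth.comp_contDiff h1 fun q => Complex.exp_ne_zero _
  obtain ⟨ζ, hζ, hζ1⟩ := curv_root hn
  have hN := curv_normal hf hζ1 fun w z => hK.rot ζ hζ _ _ (Complex.exp_ne_zero _)
  have hA : (fun u : ℂ => f (u, 0)) = fun u : ℂ => (2 * n) * Real.cosh (2 / n * u.re) := by
    funext u
    have := hK.axis u
    rw [show 2 * u.re / n = 2 / n * u.re by ring] at this
    exact this
  have hd : ∀ (v x : V), DifferentiableAt ℝ (D v f) x := fun v x =>
    D_diff (hf.contDiffAt.of_le two_le_inf) v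
  have hT : ∀ w c : ℂ, D ((c, 0) : V) (D ((c, 0) : V) f) (w, 0) =
      8 / n * c.re ^ 2 * Real.cosh (2 / n * w.re) := by
    intro w c
    rw [curv_line (hd _ _)]
    have : (fun u : ℂ => D ((c, 0) : V) f (u, 0)) =
        fun u : ℂ => (2 * n) * (2 / n) * c.re * Real.sinh (2 / n * u.re) := by
      funext u
      rw [curv_line (hf.differentiable (by simp) _), hA, curv_cosh]
    rw [this, curv_sinh]
    field_simp
    ring
  have hM : ∀ w c d : ℂ, D ((c, 0) : V) (D ((0, d) : V) f) (w, 0) = 0 := by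
    intro w c d
    rw [curv_line (hd _ _)]
    have : (fun u : ℂ => D ((0, d) : V) f (u, 0)) = fun _ : ℂ => (0 : ℝ) := funext fun u => hN u d
    rw [this, D_const]
  refine ⟨fun w => 8 / n * Real.cosh (2 / n * w.re), Eventually.of_forall fun w => ?_, ?_⟩
  · have a0 : Complex.I • ((1, 0) : V) = (Complex.I, 0) := by simp
    have a2 : Complex.I • ((0, 1) : V) = (0, Complex.I) := by simp
    have a3 : Complex.I • ((0, Complex.I) : V) = (0, -1) := by simp
    rw [zero_add]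
    refine ⟨?_, ?_, ?_⟩
    · change lev f (w, 0) (1, 0) (1, 0) = _
      rw [lev, a0, hT, hT]; simp
    · change lev f (w, 0) (1, 0) (0, 1) = _
      rw [lev, a0, a2, hM, hM, add_zero]
    · change lev f (w, 0) (1, 0) (0, Complex.I) = _
      rw [lev, a0, a3, hM, hM, add_zero]
  · simp only [lev, curv_cosh, curv_sinh]
    simp [hn0]

theorem curv_pz {n : ℕ} (a : Fin n → ℂ) : ContDiff ℂ ∞ (Pz a) := by
  unfold Pz
  exact contDiff_prod fun j _ => contDiff_id.sub contDiff_const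

theorem curv_inj {N : V → C3} {L : C3 →L[ℂ] V} {x : V} (hN : DifferentiableAt ℂ N x)
    {A : V →L[ℂ] V} (hA : HasFDerivAt (fun y => L (N y)) A x) (hi : Function.Injective A) :
    Function.Injective (fderiv ℂ N x) := by
  have h1 : HasFDerivAt (fun y => L (N y)) (L.comp (fderiv ℂ N x)) x :=
    L.hasFDerivAt.comp x hN.hasFDerivAt
  rw [hA.unique h1] at hi
  exact Function.Injective.of_comp (f := L) hi

theorem curv_sx {n : ℕ} (a : Fin n → ℂ) : ContDiffOn ℂ ∞ (sx a) {q : V | q.1 ≠ 0} :=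
  contDiffOn_fst.prodMk
    ((((curv_pz a).comp contDiff_snd).contDiffOn.div contDiffOn_fst fun _ h => h).prodMk
      contDiffOn_snd)

theorem curv_mem {n : ℕ} (a : Fin n → ℂ) {q : V} (hq : q.1 ≠ 0) : sx a q ∈ Xs a := by
  change q.1 * (Pz a q.2 / q.1) = Pz a q.2
  field_simp

theorem ssx : SSX := by
  intro n a
  have hU : IsOpen {q : V | q.1 ≠ 0} := isOpen_ne_fun continuous_fst continuous_const
  have hs := curv_sx a
  let L1 : C3 →L[ℂ] V := (ContinuousLinearMap.fst ℂ ℂ (ℂ × ℂ)).prod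
    ((ContinuousLinearMap.snd ℂ ℂ ℂ).comp (ContinuousLinearMap.snd ℂ ℂ (ℂ × ℂ)))
  let L2 : C3 →L[ℂ] V :=
    ((ContinuousLinearMap.fst ℂ ℂ ℂ).comp (ContinuousLinearMap.snd ℂ ℂ (ℂ × ℂ))).prod
      ((ContinuousLinearMap.snd ℂ ℂ ℂ).comp (ContinuousLinearMap.snd ℂ ℂ (ℂ × ℂ)))
  have hsw : ContDiff ℂ ∞ swap :=
    (contDiff_fst.comp contDiff_snd).prodMk (contDiff_fst.prodMk (contDiff_snd.comp contDiff_snd))
  have hs2 : ContDiffOn ℂ ∞ (fun q => swap (sx a q)) {q : V | q.1 ≠ 0} := hsw.comp_contDiffOn hs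
  have he : ContDiff ℂ ∞ (fun q : V => ((Complex.exp q.1, q.2) : V)) :=
    (Complex.contDiff_exp.comp contDiff_fst).prodMk contDiff_snd
  have hs3 : ContDiff ℂ ∞ (fun q : V => sx a (Complex.exp q.1, q.2)) :=
    hs.comp_contDiff he fun q => Complex.exp_ne_zero _
  refine ⟨⟨hU, hs, fun q hq => curv_mem a hq, fun x hx => ?_⟩,
    ⟨hU, hs2, fun q hq => ?_, fun x hx => ?_⟩,
    ⟨isOpen_univ, hs3.contDiffOn, fun q _ => curv_mem a (Complex.exp_ne_zero _), fun x _ => ?_⟩⟩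
  · exact curv_inj (L := L1) ((hs.contDiffAt (hU.mem_nhds hx)).differentiableAt (by simp))
      (hasFDerivAt_id x) Function.injective_id
  · have := curv_mem a hq
    change Pz a q.2 / q.1 * q.1 = Pz a q.2
    rw [mul_comm]; exact this
  · exact curv_inj (L := L2) ((hs2.contDiffAt (hU.mem_nhds hx)).differentiableAt (by simp))
      (hasFDerivAt_id x) Function.injective_id
  · have h1 : HasFDerivAt (fun q : V => Complex.exp q.1)
        (Complex.exp x.1 • ContinuousLinearMap.fst ℂ ℂ ℂ) x :=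
      (Complex.hasDerivAt_exp x.1).comp_hasFDerivAt x hasFDerivAt_fst
    refine curv_inj (L := L1) (hs3.differentiable (by simp) _) (h1.prodMk hasFDerivAt_snd) ?_
    intro v w h
    have h' : ((Complex.exp x.1 * v.1, v.2) : V) = (Complex.exp x.1 * w.1, w.2) := h
    obtain ⟨a1, a2⟩ := Prod.mk.inj h'
    exact Prod.ext (mul_left_cancel₀ (Complex.exp_ne_zero _) a1) a2

end

end Pool.Agent.MP_67f0e4_gt.D1
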