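import Pool.Agent.MP_67f0e4_gt.D1.Spec

/-! Row ERR: the error term on the cover decays with all derivatives. -/

open scoped ContDiff Topology ComplexConjugate
open Filter Set

namespace Pool.Agent.MP_67f0e4_gt.D1

open K

noncomputable section

variable {n : ℕ}

theorem err_dl (f : V → ℝ) (hf : ContDiff ℝ ∞ f) (l : List (Fin 4)) :
    ∃ m : Fin l.length → V, (∀ i, ‖m i‖ ≤ 1) ∧
      DL l f = fun x => iteratedFDeriv ℝ l.length f x m := by
  induction l with
  | nil => exact ⟨fun i => i.elim0, fun i => i.elim0, funext fun x => by simp [DL]⟩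
  | cons i l ih =>
    obtain ⟨m, h1, h2⟩ := ih
    have h0 : ‖e i‖ ≤ 1 := by fin_cases i <;> simp [e]
    refine ⟨Fin.cons (e i) m, fun j => Fin.cases h0 (fun j => h1 j) j, funext fun x => ?_⟩
    have hd : DifferentiableAt ℝ (iteratedFDeriv ℝ l.length f) x :=
      (hf.differentiable_iteratedFDeriv (by exact_mod_cast ENat.natCast_lt_top _)) x
    have h3 := hd.iteratedFDeriv_succ_apply_left' (m := Fin.cons (e i) m)
    rw [Fin.tail_cons, Fin.cons_zero] at h3
    show fderiv ℝ (DL l f) x (e i) = _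
    rw [h2]
    exact h3.symm

/-- The phase. -/
def err_ph (w : ℂ) : ℂ := Complex.exp (2 * w) * (Real.exp (-2 * w.re) : ℝ)

theorem err_ph_norm (w : ℂ) : ‖err_ph w‖ = 1 := by
  rw [err_ph, norm_mul, Complex.norm_exp, Complex.norm_real, Real.norm_eq_abs,
    abs_of_pos (Real.exp_pos _), ← Real.exp_add]
  simp

theorem err_ph_add (w w' : ℂ) : err_ph (w + w') = err_ph w * err_ph w' := by
  rw [err_ph, err_ph, err_ph, mul_add, Complex.exp_add, Complex.add_re, mul_add, Real.exp_add,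
    Complex.ofReal_mul]
  ring

theorem err_ex_sm : ContDiff ℝ ∞ fun w : ℂ => Real.exp (-2 * w.re) :=
  (contDiff_const.mul Complex.reCLM.contDiff).exp

theorem err_ph_sm : ContDiff ℝ ∞ err_ph :=
  (contDiff_const.mul contDiff_id).cexp.mul (Complex.ofRealCLM.contDiff.comp err_ex_sm)

theorem err_pos (hP : PsF n) (a : Fin n → ℂ) (t : ℝ) (s : ℂ) : 0 < pot a t (1, s) :=
  hP.posx _ _ (by simp [Xs, sx]) one_ne_zero

/-- The logarithm of the potential on `x = 1`. -/
def err_L (a : Fin n → ℂ) (b : ℝ × ℂ) : ℝ := Real.log (pot a b.1 (1, b.2))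

theorem err_log_sm (hP : PsF n) (hK : KsF n) (a : Fin n → ℂ) : ContDiff ℝ ∞ (err_L a) := by
  have h1 : ContDiff ℝ ∞ fun b : ℝ × ℂ => ((b.1, (1, b.2)) : ℝ × V) :=
    contDiff_fst.prodMk (contDiff_const.prodMk contDiff_snd)
  exact ((hK.potsm a).comp_contDiff h1 fun _ => one_ne_zero).log fun b => (err_pos hP a _ _).ne'

theorem err_zero (hP : PsF n) (a : Fin n → ℂ) (s : ℂ) : pot a 0 (1, s) = n * (1 + ‖s‖ ^ 2) := by
  have h1 : sc 0 a = fun _ => 0 := funext fun j => by simp [sc]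
  have h2 := hP.cone (1, s)
  simp only [one_pow, one_mul, map_one, Complex.normSq_eq_norm_sq s] at h2
  rw [pot, h1, ← h2]
  simp [sx, Pz]

theorem err_psi (hP : PsF n) (a : Fin n → ℂ) (w ξ : ℂ) : psi a (cov a (w, ξ)) =
    Real.exp w.re ^ 2 * pot a (Real.exp (-2 * w.re)) (1, ξ * err_ph w) := by
  have c0 := Real.exp_pos w.re
  have h0 : Real.exp w.re ^ 2 * Real.exp (-2 * w.re) = 1 := by
    rw [← Real.exp_nat_mul, ← Real.exp_add]
    simp
  have h0' : ((Real.exp w.re : ℝ) : ℂ) ^ 2 * (Real.exp (-2 * w.re) : ℝ) = 1 := by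
    rw [← Complex.ofReal_pow, ← Complex.ofReal_mul, h0, Complex.ofReal_one]
  have h1 : sc (Real.exp w.re ^ 2) (sc (Real.exp (-2 * w.re)) a) = a := funext fun j => by
    rw [sc, sc, ← mul_assoc, ← Complex.ofReal_mul, h0, Complex.ofReal_one, one_mul]
  have h2 := hP.scale (sc (Real.exp (-2 * w.re)) a) _ c0
    (sx (sc (Real.exp (-2 * w.re)) a) (1, ξ * err_ph w))
  rw [h1] at h2
  have h3 : ξ * Complex.exp (2 * w) = ((Real.exp w.re : ℝ) : ℂ) ^ 2 * (ξ * err_ph w) := by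
    rw [err_ph]
    linear_combination (-(ξ * Complex.exp (2 * w))) * h0'
  have h4 : Pz a (ξ * Complex.exp (2 * w)) = (((Real.exp w.re : ℝ) : ℂ) ^ 2) ^ n *
      Pz (sc (Real.exp (-2 * w.re)) a) (ξ * err_ph w) := by
    rw [h3, Pz, Pz, ← Fin.prod_const n, ← Finset.prod_mul_distrib]
    refine Finset.prod_congr rfl fun j _ => ?_
    rw [sc]
    linear_combination (a j) * h0'
  have h5 : ‖Complex.exp (n * w)‖ = Real.exp w.re ^ n := by
    rw [Complex.exp_nat_mul, norm_pow, Complex.norm_exp]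
  have h6 : ‖((Real.exp w.re : ℝ) : ℂ)‖ = Real.exp w.re := by
    rw [Complex.norm_real, Real.norm_eq_abs, abs_of_pos c0]
  rw [pot, ← h2]
  refine (hP.circ a _ _ ?_ ?_ h3).2
  · show ‖Complex.exp (n * w)‖ = ‖((Real.exp w.re : ℝ) : ℂ) ^ n * 1‖
    rw [h5, mul_one, norm_pow, h6]
  · show ‖Pz a (ξ * Complex.exp (2 * w)) * Complex.exp (-(n * w))‖ =
      ‖((Real.exp w.re : ℝ) : ℂ) ^ n * (Pz (sc (Real.exp (-2 * w.re)) a) (ξ * err_ph w) / 1)‖
    rw [h4, Complex.exp_neg, div_one, norm_mul, norm_mul, norm_mul, norm_inv, h5, norm_pow,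
      norm_pow, norm_pow, h6, ← pow_mul, mul_comm 2 n, pow_mul]
    field_simp

/-- The family in the scale `t`. -/
def err_G (g : ℝ × ℂ → ℝ) (b : ℝ × ℂ × V) : ℝ :=
  g (b.1 * Real.exp (-2 * b.2.2.1.re), b.2.2.2 * (b.2.1 * err_ph b.2.2.1)) -
    g (0, b.2.2.2 * (b.2.1 * err_ph b.2.2.1))

theorem err_G_sm {g : ℝ × ℂ → ℝ} (hg : ContDiff ℝ ∞ g) : ContDiff ℝ ∞ (err_G g) := by
  have h1 : ContDiff ℝ ∞ fun b : ℝ × ℂ × V => b.2.2.2 * (b.2.1 * err_ph b.2.2.1) :=
    contDiff_snd.snd.snd.mul (contDiff_snd.fst.mul (err_ph_sm.comp contDiff_snd.snd.fst))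
  have h2 : ContDiff ℝ ∞ fun b : ℝ × ℂ × V => b.1 * Real.exp (-2 * b.2.2.1.re) :=
    contDiff_fst.mul (err_ex_sm.comp contDiff_snd.snd.fst)
  have h3 := hg.comp (h2.prodMk h1)
  have h4 := hg.comp ((contDiff_const (c := (0 : ℝ))).prodMk h1)
  exact h3.sub h4

theorem err_eq (hP : PsF n) (a : Fin n → ℂ) (w₀ : ℂ) (q : V) :
    err a q = err_G (err_L a) (Real.exp (-2 * w₀.re), (err_ph w₀, -w₀, 0) + (0, q)) := by
  obtain ⟨w, ξ⟩ := q
  have h1 : Real.exp (-2 * w₀.re) * Real.exp (-2 * (-w₀ + w).re) = Real.exp (-2 * w.re) := by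
    rw [← Real.exp_add, Complex.add_re, Complex.neg_re]
    ring_nf
  have h2 : err_ph w₀ * err_ph (-w₀ + w) = err_ph w := by
    rw [← err_ph_add, add_neg_cancel_left]
  simp only [err, err_G, err_L, Prod.mk_add_mk, add_zero, zero_add]
  rw [h1, h2, err_psi hP, err_zero hP, norm_mul, err_ph_norm, mul_one,
    Real.log_mul (pow_pos (Real.exp_pos _) 2).ne' (err_pos hP a _ _).ne', Real.log_pow,
    Real.log_exp]
  push_cast
  ring

theorem serr : SERR := by
  intro hS n _ hP hK a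
  have hG := err_G_sm (err_log_sm hP hK a)
  have hg : ∀ (t : ℝ) (b : ℂ × V), ContDiff ℝ ∞ fun z : ℂ × V => err_G (err_L a) (t, b + z) := fun t b =>
    hG.comp (contDiff_const.prodMk (contDiff_const.add contDiff_id))
  have he : ∀ w₀ : ℂ, err a =
      (fun z : ℂ × V => err_G (err_L a) (Real.exp (-2 * w₀.re), (err_ph w₀, -w₀, 0) + z)) ∘
        ContinuousLinearMap.inr ℝ ℂ V := fun w₀ => funext fun q => err_eq hP a w₀ q
  have hs : ContDiff ℝ ∞ (err a) := by
    rw [he 0]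
    exact (hg _ _).comp (ContinuousLinearMap.inr ℝ ℂ V).contDiff
  refine ⟨hs, fun C0 Ξ l => ?_⟩
  obtain ⟨C, hC⟩ := hS (ℂ × V) ℝ (err_G (err_L a)) univ (Metric.closedBall 0 (max 1 Ξ))
    (Real.exp (2 * C0)) isOpen_univ hG.contDiffOn (isCompact_closedBall _ _) (subset_univ _)
    (fun v _ => by simp [err_G]) l.length
  obtain ⟨m, m1, m2⟩ := err_dl _ hs l
  refine ⟨C, fun w ξ hw hξ => ?_⟩
  have h1 := hC (Real.exp (-2 * w.re)) ⟨(Real.exp_pos _).le, Real.exp_le_exp.2 (by linarith)⟩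
    ((err_ph w, -w, 0) + ContinuousLinearMap.inr ℝ ℂ V (w, ξ)) (by
      rw [mem_closedBall_zero_iff]
      simp only [ContinuousLinearMap.inr_apply, Prod.mk_add_mk, add_zero, zero_add,
        neg_add_cancel, Prod.norm_mk, err_ph_norm, norm_zero]
      exact max_le (le_max_left _ _) (max_le (le_max_of_le_left zero_le_one)
        (le_max_of_le_right hξ)))
  have h2 := (ContinuousLinearMap.inr ℝ ℂ V).iteratedFDeriv_comp_right
    (hg (Real.exp (-2 * w.re)) (err_ph w, -w, 0)) (w, ξ) (i := l.length)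
    (by exact_mod_cast le_top)
  rw [← he w, iteratedFDeriv_comp_add_left
    (f := fun z : ℂ × V => err_G (err_L a) (Real.exp (-2 * w.re), z))] at h2
  rw [m2]
  show ‖iteratedFDeriv ℝ l.length (err a) (w, ξ) m‖ ≤ _
  rw [h2, ContinuousMultilinearMap.compContinuousLinearMap_apply]
  refine ((ContinuousMultilinearMap.le_opNorm _ _).trans (mul_le_of_le_one_right (norm_nonneg _)
    (Finset.prod_le_one (fun i _ => norm_nonneg _) fun i _ => ?_))).trans h1
  rw [ContinuousLinearMap.inr_apply, Prod.norm_mk, norm_zero]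
  exact max_le zero_le_one (m1 i)

end

end Pool.Agent.MP_67f0e4_gt.D1
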