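import Pool.Agent.MP_67f0e4_gt.D1.MainS

/-! The chart at infinity in the form of the statement layer. -/

open scoped ContDiff Topology
open Filter Set

namespace Pool.Agent.MP_67f0e4_gt.D1

open K

noncomputable section

/-- The standard identification of four space with the complex plane. -/
def inf_io : D2.E4 ≃L[ℝ] V :=
  LinearEquiv.toContinuousLinearEquiv
    { toFun := fun v => (⟨v 0, v 1⟩, ⟨v 2, v 3⟩)
      invFun := fun q => WithLp.toLp 2 ![q.1.re, q.1.im, q.2.re, q.2.im]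
      map_add' := fun v w => by
        refine Prod.ext (Complex.ext ?_ ?_) (Complex.ext ?_ ?_) <;> simp
      map_smul' := fun c v => by
        refine Prod.ext (Complex.ext ?_ ?_) (Complex.ext ?_ ?_) <;> simp
      left_inv := fun v => by
        ext i
        fin_cases i <;> simp
      right_inv := fun q => by
        refine Prod.ext (Complex.ext ?_ ?_) (Complex.ext ?_ ?_) <;> simp }

theorem inf_iso : D2.Iso inf_io := by
  intro v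
  have h : inf_io v = ((⟨v 0, v 1⟩ : ℂ), (⟨v 2, v 3⟩ : ℂ)) := rfl
  rw [h, EuclideanSpace.real_norm_sq_eq, Fin.sum_univ_four, Complex.normSq_mk, Complex.normSq_mk]
  ring

theorem inf_sw (ι : D2.E4 ≃L[ℝ] V) (v : D2.E4) : sw ι v = ((ι v).2, (ι v).1) := rfl

theorem inf_iso_sw {ι : D2.E4 ≃L[ℝ] V} (h : D2.Iso ι) : D2.Iso (sw ι) := by
  intro v
  rw [inf_sw, h v, add_comm]

theorem inf_sw_smul (ι : D2.E4 ≃L[ℝ] V) (κ : ℝ) (v : D2.E4) :
    κ • sw ι v = ((κ • ι v).2, (κ • ι v).1) := rfl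

theorem inf_om {n : ℕ} {q : V} (h : 40 ≤ D2.NN n q) : ((1 : ℝ), q) ∈ D2.Om n := by
  show 8 * |(1 : ℝ)| ^ n < D2.NN n q
  rw [abs_one, one_pow]
  linarith

theorem inf_om_sw {n : ℕ} {t : ℝ} {q : V} (h : (t, (q.2, q.1)) ∈ D2.Om n) :
    (t, q) ∈ D2.Om n := by
  have h' : 8 * |t| ^ n < D2.NN n (q.2, q.1) := h
  show 8 * |t| ^ n < D2.NN n q
  rw [D2.NN] at h' ⊢
  linarith

theorem inf_ph {n : ℕ} (hL : D2.LamF n) (ι : D2.E4 ≃L[ℝ] V) (κ : ℝ) {v : D2.E4}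
    (h : ((1 : ℝ), κ • ι v) ∈ D2.Om n) :
    ContDiffAt ℝ ∞ (fun w : D2.E4 => D2.Ph n 1 (κ • ι w)) v := by
  have h1 : ContDiff ℝ ∞ fun w : D2.E4 => ((1 : ℝ), κ • ι w) :=
    contDiff_const.prodMk (ι.contDiff.const_smul κ)
  exact ContDiffAt.comp (g := fun c : ℝ × V => D2.Ph n c.1 c.2)
    (f := fun w : D2.E4 => ((1 : ℝ), κ • ι w)) v
    (hL.smooth.contDiffAt (hL.isOpen.mem_nhds h)) h1.contDiffAt

theorem inf_pp {n : ℕ} (hL : D2.LamF n) (ι : D2.E4 ≃L[ℝ] V) (κ : ℝ) {v : D2.E4}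
    (h : ((1 : ℝ), κ • ι v) ∈ D2.Om n) : DifferentiableAt ℝ (D2.PP n ι κ 1) v := by
  have h1 := (inf_ph hL ι κ h).differentiableAt (by simp)
  exact h1.fst.prodMk h1.snd.snd

theorem inf_sx {n : ℕ} (hL : D2.LamF n) (hr : RtF n) (ι : D2.E4 ≃L[ℝ] V) (κ : ℝ) {v : D2.E4}
    (h : ((1 : ℝ), v) ∈ D2.WW n ι κ) : sx (rt n) (D2.PP n ι κ 1 v) = D2.Ph n 1 (κ • ι v) := by
  have h1 := hL.surf 1 _ h.1
  have h2 : (D2.Ph n 1 (κ • ι v)).1 ≠ 0 := h.2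
  refine Prod.ext rfl (Prod.ext ?_ rfl)
  show Pz (rt n) (D2.Ph n 1 (κ • ι v)).2.2 / (D2.Ph n 1 (κ • ι v)).1 = (D2.Ph n 1 (κ • ι v)).2.1
  rw [hr.pz1, div_eq_iff h2, mul_comm, h1]
  simp

theorem inf_near {n : ℕ} {ι : D2.E4 ≃L[ℝ] V} {κ : ℝ} (hW : IsOpen (D2.WW n ι κ)) {v : D2.E4}
    (h : ((1 : ℝ), v) ∈ D2.WW n ι κ) : ∀ᶠ w in 𝓝 v, ((1 : ℝ), w) ∈ D2.WW n ι κ :=
  (continuous_const.prodMk continuous_id).continuousAt.eventually (hW.mem_nhds h)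

theorem inf_pot {n : ℕ} (a : Fin n → ℂ) : psi a ∘ sx a = pot a 1 := by
  funext q
  simp only [pot, sc_one, Function.comp]

theorem inf_lev {n : ℕ} {pt : ℝ → V → ℝ} (hV : D2.LevF) (hK : D2.KF n pt)
    {ι : D2.E4 ≃L[ℝ] V} {κ : ℝ} {v : D2.E4} (h : ((1 : ℝ), v) ∈ D2.WW n ι κ) (a b : D2.E4) :
    D2.GG n pt ι κ 1 v a b = lev (pt 1) (D2.PP n ι κ 1 v) (fderiv ℝ (D2.PP n ι κ 1) v a)
      (fderiv ℝ (D2.PP n ι κ 1) v b) := by
  have ho : IsOpen {c : ℝ × V | c.2.1 ≠ 0} :=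
    isOpen_ne_fun continuous_snd.fst continuous_const
  have h1 : ContDiffAt ℝ ∞ (pt 1) (D2.PP n ι κ 1 v) :=
    ContDiffAt.comp (g := fun c : ℝ × V => pt c.1 c.2) (f := fun q : V => ((1 : ℝ), q)) _
      (hK.smooth.contDiffAt (ho.mem_nhds h.2)) (contDiffAt_const.prodMk contDiffAt_id)
  rw [hV.bridge _ _ (h1.of_le (WithTop.coe_le_coe.2 (le_top : (2 : ℕ∞) ≤ ⊤)))]
  rfl

theorem sinf : SINF := by
  classical
  intro hgam hinj hsur hphi hV hgs hgz hgh hdec hsx hover n hn hL hps hr hK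
  have hn0 : (0 : ℝ) < n := by exact_mod_cast hn
  set ι := inf_io with hιdef
  have hι : D2.Iso ι := inf_iso
  have hι' := inf_iso_sw hι
  obtain ⟨κ, hκ, hκ2⟩ : ∃ κ : ℝ, 0 < κ ∧ 4 * n * κ ^ 2 = 1 := by
    refine ⟨1 / (2 * √n), by positivity, ?_⟩
    rw [div_pow, mul_pow, Real.sq_sqrt hn0.le]
    field_simp
    norm_num
  obtain ⟨Γ, hΓ⟩ := hgam n ι hn hι
  obtain ⟨R₀, hR₀, h40, hend⟩ := hphi n ι Γ κ hn hι hΓ hL (hinj n hn hL) (hsur n hn hL) hκ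
  have gf : ∀ j : D2.E4 ≃L[ℝ] V, D2.Iso j → D2.GF n (pot (rt n)) j κ := fun j hj =>
    ⟨(hgs n _ j κ hn hL hV hK).1, (hgs n _ j κ hn hL hV hK).2,
      hgz n _ j κ hn hL hV hK hj hκ hκ2, hgh n _ j κ hn hL hV hK⟩
  obtain ⟨R₁, -, a1, d1⟩ := hdec n _ ι κ hn hL hι hκ (gf ι hι)
  obtain ⟨R₂, -, a2, d2⟩ := hdec n _ (sw ι) κ hn hL hι' hκ (gf _ hι')
  set R := max R₀ (max R₁ R₂) with hR
  have r0 : ∀ {v : D2.E4}, R < ‖v‖ → R₀ < ‖v‖ := fun h => (le_max_left _ _).trans_lt h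
  have r1 : ∀ {v : D2.E4}, R < ‖v‖ → R₁ < ‖v‖ := fun h =>
    ((le_max_left _ _).trans (le_max_right _ _)).trans_lt h
  have r2 : ∀ {v : D2.E4}, R < ‖v‖ → R₂ < ‖v‖ := fun h =>
    ((le_max_right _ _).trans (le_max_right _ _)).trans_lt h
  have hp0 : ((1, -1, 0) : C3) ∈ H.surf n := by
    show (1 : ℂ) * (-1) = 0 ^ n - 1
    rw [zero_pow (by omega)]
    ring
  have hmem : ∀ v : D2.E4, 40 ≤ D2.NN n (κ • ι v) → D2.Ph n 1 (κ • ι v) ∈ H.surf n := by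
    intro v h
    have := hL.surf 1 _ (inf_om h)
    rw [Complex.ofReal_one, one_pow] at this
    exact this
  let Θ : D2.E4 → D2.XX n := fun v =>
    if h : 40 ≤ D2.NN n (κ • ι v) then ⟨D2.Ph n 1 (κ • ι v), hmem v h⟩ else ⟨(1, -1, 0), hp0⟩
  have hΘ : ∀ v, R < ‖v‖ → (Θ v).1 = D2.Ph n 1 (κ • ι v) := fun v hv => by
    simp only [Θ, dif_pos (h40 v (r0 hv))]
  have hE := hend R (le_max_left _ _) Θ hΘ
  have hopen : IsOpen {v : D2.E4 | R < ‖v‖} := isOpen_lt continuous_const continuous_norm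
  let G : D2.E4 → D2.E4 → D2.E4 → ℝ := fun v a b =>
    if (D2.Ph n 1 (κ • ι v)).1 ≠ 0 then D2.GG n (pot (rt n)) ι κ 1 v a b
    else D2.GG n (pot (rt n)) (sw ι) κ 1 v a b
  have hsym : ∀ x z : ℂ, x ≠ 0 → z ^ n - 1 ≠ 0 →
      pot (rt n) 1 ((z ^ n - 1) / x, z) = pot (rt n) 1 (x, z) := by
    intro x z hx hz
    rw [pot, pot, sc_one, ← (hps.swap (rt n) (sx (rt n) (x, z))).2]
    have e : sx (rt n) ((z ^ n - 1) / x, z) = swap (sx (rt n) (x, z)) := by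
      simp only [sx, swap, hr.pz1]
      refine Prod.ext rfl (Prod.ext ?_ rfl)
      show (z ^ n - 1) / ((z ^ n - 1) / x) = x
      field_simp
    rw [e]
  have g1 : ∀ w, ((1 : ℝ), w) ∈ D2.WW n ι κ → ∀ a b,
      G w a b = D2.GG n (pot (rt n)) ι κ 1 w a b := fun w hw a b => if_pos hw.2
  have g2 : ∀ w, ((1 : ℝ), w) ∈ D2.WW n (sw ι) κ → ∀ a b,
      G w a b = D2.GG n (pot (rt n)) (sw ι) κ 1 w a b := by
    intro w hw a b
    by_cases h : (D2.Ph n 1 (κ • ι w)).1 ≠ 0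
    · have hw' : ((1 : ℝ), w) ∈ D2.WW n ι κ := ⟨inf_om_sw hw.1, h⟩
      rw [g1 w hw', hover n _ ι κ hn hL hV hK hsym w hw' hw]
    · exact if_neg h
  have hcase : ∀ v : D2.E4, ‖(ι v).2‖ ≤ ‖(ι v).1‖ ∨ ‖(sw ι v).2‖ ≤ ‖(sw ι v).1‖ := fun v =>
    le_total _ _
  refine ⟨Γ, R, Θ, G, hE, hΓ.cyc, hΓ.card, ?_, hE.fib, hE.cocpt, hE.proper, ?_, ?_, ?_⟩
  · intro v hv
    refine ((inf_ph hL ι κ (inf_om (h40 v (r0 hv)))).contDiffWithinAt).congr ?_ (hΘ v hv)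
    exact fun w hw => hΘ w hw
  · intro v hv
    have hnear : ∀ᶠ w in 𝓝 v, R < ‖w‖ := hopen.mem_nhds hv
    rcases hcase v with h | h
    · have hw := (a1 v (r1 hv) h).1
      refine ⟨sx (rt n), {q | q.1 ≠ 0}, D2.PP n ι κ 1, hr.surf ▸ (hsx n _).1, hw.2,
        inf_pp hL ι κ hw.1, ?_, fun a b => ?_⟩
      · filter_upwards [hnear, inf_near (gf ι hι).isOpen hw] with w h1 h2
        rw [inf_sx hL hr ι κ h2, hΘ w h1]
      · rw [g1 v hw, inf_pot, inf_lev hV hK hw]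
    · have hw := (a2 v (r2 hv) h).1
      refine ⟨fun q => swap (sx (rt n) q), {q | q.1 ≠ 0}, D2.PP n (sw ι) κ 1,
        hr.surf ▸ (hsx n _).2.1, hw.2, inf_pp hL _ κ hw.1, ?_, fun a b => ?_⟩
      · filter_upwards [hnear, inf_near (gf _ hι').isOpen hw] with w h1 h2
        rw [inf_sx hL hr _ κ h2, hΘ w h1, inf_sw_smul, hL.swap]
        rfl
      · have e : (psi (rt n) ∘ fun q => swap (sx (rt n) q)) = pot (rt n) 1 := by
          rw [← inf_pot]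
          funext q
          exact (hps.swap _ _).2
        rw [g2 v hw, e, inf_lev hV hK hw]
  · intro v hv a ha
    rcases hcase v with h | h
    · rw [g1 v (a1 v (r1 hv) h).1]
      exact (a1 v (r1 hv) h).2 a ha
    · rw [g2 v (a2 v (r2 hv) h).1]
      exact (a2 v (r2 hv) h).2 a ha
  · intro a b k
    obtain ⟨C₁, hC₁⟩ := d1 a b k
    obtain ⟨C₂, hC₂⟩ := d2 a b k
    refine ⟨max C₁ C₂, fun v hv => ?_⟩
    have hp : 0 ≤ ‖v‖ ^ (-(2 : ℝ) - k) := Real.rpow_nonneg (norm_nonneg _) _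
    rcases hcase v with h | h
    · have e : (fun w => G w a b - inner ℝ a b) =ᶠ[𝓝 v]
          fun w => D2.GG n (pot (rt n)) ι κ 1 w a b - inner ℝ a b := by
        filter_upwards [inf_near (gf ι hι).isOpen (a1 v (r1 hv) h).1] with w hw
        rw [g1 w hw]
      rw [(e.iteratedFDeriv ℝ k).eq_of_nhds]
      exact (hC₁ v (r1 hv) h).trans (mul_le_mul_of_nonneg_right (le_max_left _ _) hp)
    · have e : (fun w => G w a b - inner ℝ a b) =ᶠ[𝓝 v]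
          fun w => D2.GG n (pot (rt n)) (sw ι) κ 1 w a b - inner ℝ a b := by
        filter_upwards [inf_near (gf _ hι').isOpen (a2 v (r2 hv) h).1] with w hw
        rw [g2 w hw]
      rw [(e.iteratedFDeriv ℝ k).eq_of_nhds]
      exact (hC₂ v (r2 hv) h).trans (mul_le_mul_of_nonneg_right (le_max_right _ _) hp)

theorem stop : STOP := by
  intro hend hts n hn hinf
  obtain ⟨Γ, R, Θ, -, hE, -, hc, -⟩ := hinf
  obtain ⟨Γ', R', Φ', hE', hc'⟩ := hts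
  have hcl : IsClosed (H.surf n) :=
    isClosed_eq (continuous_fst.mul continuous_snd.fst)
      ((continuous_snd.snd.pow n).sub continuous_const)
  have := hcl.locallyCompactSpace
  refine ⟨fun f => ?_⟩
  have h := hend (D2.XX n) D2.TS Γ Γ' R R' Θ Φ' hE hE' ⟨f⟩
  omega

end

end Pool.Agent.MP_67f0e4_gt.D1
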