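import Pool.Agent.MP_67f0e4_gt.D1.Spec

/-! Row LOG: Monge-Ampere equation and gradient bounds in logarithmic coordinates. -/

open scoped ContDiff Topology
open Filter Set

namespace Pool.Agent.MP_67f0e4_gt.D1

open K

noncomputable section

theorem log_alg {ι : Type} [Fintype ι] (x y z r : ι → ℝ) (d : ι → ι → ℝ) (B : ℝ)
    (hr : ∀ i, 0 < r i) (hq : ∀ i, r i ^ 2 = x i ^ 2 + y i ^ 2 + z i ^ 2)
    (hd : ∀ i j, d i j ^ 2 = (x i - x j) ^ 2 + (y i - y j) ^ 2 + (z i - z j) ^ 2)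
    (h0 : ∀ i j, 0 ≤ d i j) (h1 : ∀ i j, d i j ≤ B) (h2 : ∀ i j, d i j ≤ r i + r j) :
    (∑ i, x i / r i) ^ 2 + (∑ i, y i / r i) ^ 2 + (∑ i, z i / r i) ^ 2 ≤
        (∑ i, 1 / r i) * ∑ i, r i ∧
      (∑ i, 1 / r i) * (∑ i, r i - Fintype.card ι * B) ≤
        (∑ i, x i / r i) ^ 2 + (∑ i, y i / r i) ^ 2 + (∑ i, z i / r i) ^ 2 := by
  set T : ι → ι → ℝ := fun i j => 1 / r i * r j -
    (x i / r i * (x j / r j) + y i / r i * (y j / r j) + z i / r i * (z j / r j)) with hT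
  have e1 : (∑ i, 1 / r i) * ∑ i, r i -
      ((∑ i, x i / r i) ^ 2 + (∑ i, y i / r i) ^ 2 + (∑ i, z i / r i) ^ 2) =
      ∑ i, ∑ j, T i j := by
    simp only [hT, sq, Finset.sum_mul_sum, Finset.sum_sub_distrib, Finset.sum_add_distrib]
  have e2 : ∑ i, ∑ j, (T i j + T j i) = 2 * ∑ i, ∑ j, T i j := by
    simp only [Finset.sum_add_distrib]
    rw [Finset.sum_comm (f := fun i j => T j i), two_mul]
  have e3 : ∀ i j, T i j + T j i = d i j ^ 2 / (r i * r j) := by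
    intro i j
    have := hr i
    have := hr j
    have a := hq i
    have b := hq j
    rw [hd]
    simp only [hT]
    field_simp
    linear_combination a + b
  have e4 : ∀ i j, T i j + T j i ≤ B * (1 / r i) + B * (1 / r j) := by
    intro i j
    have a := hr i
    have b := hr j
    rw [e3, div_le_iff₀ (mul_pos a b), show (B * (1 / r i) + B * (1 / r j)) * (r i * r j) =
      B * (r i + r j) by field_simp; ring, sq]
    exact mul_le_mul (h1 i j) (h2 i j) (h0 i j) ((h0 i j).trans (h1 i j))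
  have e5 : 0 ≤ ∑ i, ∑ j, (T i j + T j i) :=
    Finset.sum_nonneg fun i _ => Finset.sum_nonneg fun j _ => by
      rw [e3]
      exact div_nonneg (sq_nonneg _) (mul_pos (hr i) (hr j)).le
  have e6 : ∑ i, ∑ j, (T i j + T j i) ≤ ∑ i, ∑ j, (B * (1 / r i) + B * (1 / r j)) :=
    Finset.sum_le_sum fun i _ => Finset.sum_le_sum fun j _ => e4 i j
  have e7 : ∑ i, ∑ j, (B * (1 / r i) + B * (1 / r j)) =
      2 * (Fintype.card ι * B * ∑ i, 1 / r i) := by
    simp only [Finset.sum_add_distrib, Finset.sum_const, Finset.card_univ, nsmul_eq_mul,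
      ← Finset.mul_sum]
    ring
  constructor <;> linarith

variable {n : ℕ}

theorem log_fd (a : Fin n → ℂ) {p : H73.P} (h : p ∈ H73.Up a) (w : H73.P) :
    fderiv ℝ (H73.RR a) p w = ∑ j, H73.NN (a j) p w / H73.rr (a j) p := by
  have h1 : fderiv ℝ (H73.RR a) p = _ :=
    fderiv_fun_sum (u := Finset.univ) fun j _ =>
      (H73.rr_c2 (H73.rr_pos (h j))).differentiableAt (by norm_num)
  rw [h1, sum_apply]
  exact Finset.sum_congr rfl fun j _ => H73.fd_rr (H73.rr_pos (h j)) w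

theorem log_grad (a : Fin n → ℂ) {p : H73.P} (h : p ∈ H73.Up a) :
    fderiv ℝ (H73.RR a) p H73.e0 ^ 2 + fderiv ℝ (H73.RR a) p H73.e1 ^ 2 +
        fderiv ℝ (H73.RR a) p H73.e2 ^ 2 ≤ H73.VV a p * H73.RR a p ∧
      H73.VV a p * (H73.RR a p - n * (2 * ∑ j, ‖a j‖)) ≤ fderiv ℝ (H73.RR a) p H73.e0 ^ 2 +
        fderiv ℝ (H73.RR a) p H73.e1 ^ 2 + fderiv ℝ (H73.RR a) p H73.e2 ^ 2 := by
  have h1 : ∀ j, ‖a j‖ ≤ ∑ j, ‖a j‖ := fun j =>
    Finset.single_le_sum (f := fun j => ‖a j‖) (fun _ _ => norm_nonneg _) (Finset.mem_univ j)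
  have h2 : ∀ j, ‖p.2 - a j‖ ≤ H73.rr (a j) p := fun j =>
    Real.le_sqrt_of_sq_le (le_add_of_nonneg_left (sq_nonneg _))
  have key := log_alg (fun _ => p.1) (fun j => p.2.re - (a j).re) (fun j => p.2.im - (a j).im)
    (fun j => H73.rr (a j) p) (fun i j => ‖a j - a i‖) (2 * ∑ j, ‖a j‖)
    (fun j => H73.rr_pos (h j)) (fun j => H73.rr_sq (a j) p)
    (fun i j => by rw [H73.normsq]; ring) (fun i j => norm_nonneg _)
    (fun i j => by linarith [norm_sub_le (a j) (a i), h1 i, h1 j]) fun i j => by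
      have h3 := norm_sub_le (p.2 - a i) (p.2 - a j)
      rw [sub_sub_sub_cancel_left] at h3
      linarith [h2 i, h2 j]
  rw [Fintype.card_fin] at key
  have k0 : ∀ j, H73.NN (a j) p H73.e0 = p.1 := fun j => by simp [H73.NN, H73.e0]
  have k1 : ∀ j, H73.NN (a j) p H73.e1 = p.2.re - (a j).re := fun j => by simp [H73.NN, H73.e1]
  have k2 : ∀ j, H73.NN (a j) p H73.e2 = p.2.im - (a j).im := fun j => by simp [H73.NN, H73.e2]
  simp only [log_fd a h, k0, k1, k2]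
  exact key

/-- The map `(w, z) ↦ (2 re w, z)`. -/
def log_L : V →L[ℝ] H73.P :=
  ((2 : ℝ) • Complex.reCLM.comp (ContinuousLinearMap.fst ℝ ℂ ℂ)).prod
    (ContinuousLinearMap.snd ℝ ℂ ℂ)

theorem log_L_apply (q : V) : log_L q = (2 * q.1.re, q.2) := rfl

theorem log_L0 : log_L (e 0) = (2 : ℝ) • H73.e0 := by simp [log_L_apply, H73.e0, e]
theorem log_L1 : log_L (e 1) = 0 := by simp [log_L_apply, e]
theorem log_L2 : log_L (e 2) = H73.e1 := by simp [log_L_apply, H73.e1, e]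
theorem log_L3 : log_L (e 3) = H73.e2 := by simp [log_L_apply, H73.e2, e]
theorem log_I0 : Complex.I • e 0 = e 1 := by simp [e]
theorem log_I2 : Complex.I • e 2 = e 3 := by simp [e]

theorem log_pos {g : Hm} (h0 : 0 < g 0) (h1 : 0 < hdet g) : Pos g := by
  intro v hv
  refine (mul_pos_iff_of_pos_left h0).1 ?_
  have h5 : g 0 * qf g v = (g 0 * v.1.re + g 2 * v.2.re + g 3 * v.2.im) ^ 2 +
      (g 0 * v.1.im + g 2 * v.2.im - g 3 * v.2.re) ^ 2 + hdet g * (v.2.re ^ 2 + v.2.im ^ 2) := by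
    simp only [qf, bf, hdet]
    ring
  rw [h5]
  by_cases h2 : v.2 = 0
  · have h3 : v.1 ≠ 0 := fun h => hv (Prod.ext h h2)
    have h4 : 0 < v.1.re * v.1.re + v.1.im * v.1.im := Complex.normSq_pos.2 h3
    simp only [h2, Complex.zero_re, Complex.zero_im]
    nlinarith [mul_pos (mul_pos h0 h0) h4]
  · have h4 : 0 < v.2.re * v.2.re + v.2.im * v.2.im := Complex.normSq_pos.2 h2
    have : 0 < hdet g * (v.2.re ^ 2 + v.2.im ^ 2) := mul_pos h1 (by nlinarith)
    positivity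

theorem log_D1 {F : H73.P → ℝ} (hF : ContDiff ℝ 2 F) (q v : V) :
    D v (fun y => 2 * F (log_L y)) q = 2 * fderiv ℝ F (log_L q) (log_L v) := by
  have h1 := (((hF.differentiable (by norm_num)) (log_L q)).hasFDerivAt.comp q
    log_L.hasFDerivAt).const_mul 2
  have h2 : fderiv ℝ (fun y => 2 * F (log_L y)) q = _ := h1.fderiv
  rw [D, h2]
  rfl

theorem log_D2 {F : H73.P → ℝ} (hF : ContDiff ℝ 2 F) (q v w : V) :
    D v (D w fun y => 2 * F (log_L y)) q = 2 * H73.D2 F (log_L q) (log_L v) (log_L w) := by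
  have h0 : ContDiff ℝ 2 fun y => F (log_L y) := hF.comp log_L.contDiff
  have h1 : ContDiffAt ℝ 2 (fun y => 2 * F (log_L y)) q := contDiffAt_const.mul h0.contDiffAt
  have h2 := H73.D2_eq h1 v w (Eventually.of_forall fun _ => rfl)
    ((H73.hasF2 h1).clm_apply (hasFDerivAt_const w q)).differentiableAt.hasFDerivAt
  rw [← H73.D2_clm log_L hF.contDiffAt, ← H73.D2_const_mul h0.contDiffAt, h2]
  rfl

theorem slog : SLOG := by
  intro n hn ks a
  have : Nonempty (Fin n) := ⟨⟨0, hn⟩⟩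
  have hs : sc 1 a = a := funext fun j => by simp [sc]
  refine ⟨2 * (n * (2 * ∑ j, ‖a j‖)), fun q => ?_⟩
  set F : H73.P → ℝ := fun y => KK a (1, y) with hFd
  have hF : ContDiff ℝ 2 F :=
    ((ks.smooth a).of_le (by norm_cast)).comp (contDiff_const.prodMk contDiff_id)
  have hp : pL a = fun y => 2 * F (log_L y) := rfl
  obtain ⟨p, hU, hT⟩ : ∃ p ∈ H73.Up a, H73.Th a p = log_L q := by
    have h1 := ks.up a 1 (2 * q.1.re) q.2
    rw [hs] at h1
    exact ⟨_, h1.1, h1.2⟩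
  have hR : ∀ y ∈ H73.Up a, F (H73.Th a y) = H73.RR a y := fun y hy => by
    have h1 := ks.inv a 1 y (by rwa [hs])
    rw [hs] at h1
    exact h1.2
  have hV := H73.VV_pos hU
  obtain ⟨k0, k1, k2, k3⟩ := H73.K_hess hU hF.contDiffAt hR
  have ev : (fun y => F (H73.Th a y)) =ᶠ[𝓝 p] H73.RR a :=
    (show ∀ᶠ y in 𝓝 p, y ∈ H73.Up a from H73.Up_open.mem_nhds hU).mono hR
  have fc := fun w => H73.fd_comp hU ((hF.differentiable (by norm_num)) (H73.Th a p)) w
  have f0 := fc H73.e0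
  have f1 := fc H73.e1
  have f2 := fc H73.e2
  rw [ev.fderiv_eq, H73.vec0, add_zero, map_smul, smul_eq_mul, H73.fd_ll0 hU] at f0
  rw [ev.fderiv_eq, H73.vec1, map_add, map_smul, smul_eq_mul] at f1
  rw [ev.fderiv_eq, H73.vec2, map_add, map_smul, smul_eq_mul] at f2
  obtain ⟨g1, g2⟩ := log_grad a hU
  rw [f0, f1, f2] at g1 g2
  have z1 : ∀ v, H73.D2 F (H73.Th a p) 0 v = 0 := fun v => by simp [H73.D2]
  have z2 : ∀ u v, H73.D2 F (H73.Th a p) ((2 : ℝ) • u) v = 2 * H73.D2 F (H73.Th a p) u v :=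
    fun u v => by simp [H73.D2]
  have z3 : ∀ u v, H73.D2 F (H73.Th a p) u ((2 : ℝ) • v) = 2 * H73.D2 F (H73.Th a p) u v :=
    fun u v => by simp [H73.D2]
  have l0 : lv (pL a) q 0 = 8 / H73.VV a p := by
    show lev (pL a) q (e 0) (e 0) = _
    rw [lev, hp, log_I0, log_D2 hF, log_D2 hF, ← hT, log_L0, log_L1, z1, z2, z3, k0]
    ring
  have l1 : lv (pL a) q 1 = 2 * (H73.VV a p + (fderiv ℝ (H73.ll a) p H73.e1 ^ 2 +
      fderiv ℝ (H73.ll a) p H73.e2 ^ 2) / H73.VV a p) := by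
    show lev (pL a) q (e 2) (e 2) = _
    rw [lev, hp, log_I2, log_D2 hF, log_D2 hF, ← hT, log_L2, log_L3, ← k3]
    ring
  have l2 : lv (pL a) q 2 = -4 * fderiv ℝ (H73.ll a) p H73.e1 / H73.VV a p := by
    show lev (pL a) q (e 0) (e 2) = _
    rw [lev, hp, log_I0, log_D2 hF, log_D2 hF, ← hT, log_L0, log_L1, log_L2, z1, z2, k1]
    ring
  have l3 : lv (pL a) q 3 = -4 * fderiv ℝ (H73.ll a) p H73.e2 / H73.VV a p := by
    show lev (pL a) q (e 0) (e 3) = _
    rw [lev, hp, log_I0, log_D2 hF, log_D2 hF, ← hT, log_L0, log_L1, log_L3, z1, z2, k2]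
    ring
  have d0 : D (e 0) (pL a) q = 4 * fderiv ℝ F (H73.Th a p) H73.e0 := by
    rw [hp, log_D1 hF, ← hT, log_L0, map_smul, smul_eq_mul]
    ring
  have d1 : D (e 1) (pL a) q = 0 := by rw [hp, log_D1 hF, log_L1, map_zero, mul_zero]
  have d2 : D (e 2) (pL a) q = 2 * fderiv ℝ F (H73.Th a p) H73.e1 := by
    rw [hp, log_D1 hF, ← hT, log_L2]
  have d3 : D (e 3) (pL a) q = 2 * fderiv ℝ F (H73.Th a p) H73.e2 := by
    rw [hp, log_D1 hF, ← hT, log_L3]
  have hd : hdet (lv (pL a) q) = 16 := by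
    rw [hdet, l0, l1, l2, l3]
    field_simp
    ring
  have hv : pL a q = 2 * H73.RR a p := by rw [hp, ← hR p hU, hT]
  have hm : hmix (lv (pL a) q) (rk (pL a) q) = 32 *
      ((H73.VV a p * fderiv ℝ F (H73.Th a p) H73.e0) ^ 2 +
        (fderiv ℝ (H73.ll a) p H73.e1 * fderiv ℝ F (H73.Th a p) H73.e0 +
          fderiv ℝ F (H73.Th a p) H73.e1) ^ 2 +
        (fderiv ℝ (H73.ll a) p H73.e2 * fderiv ℝ F (H73.Th a p) H73.e0 +
          fderiv ℝ F (H73.Th a p) H73.e2) ^ 2) / H73.VV a p := by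
    rw [hmix, l0, l1, l2, l3]
    simp only [rk, Matrix.cons_val, d0, d1, d2, d3]
    field_simp
    ring
  refine ⟨log_pos (by rw [l0]; positivity) (by rw [hd]; norm_num), hd, ?_, ?_⟩
  · rw [hm, hv, div_le_iff₀ hV]
    linarith
  · rw [hm, hv, le_div_iff₀ hV]
    linarith

end

end Pool.Agent.MP_67f0e4_gt.D1
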