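import Pool.Agent.MP_67f0e4_gt.D1.Spec2
import Pool.Agent.MP_67f0e4_gt.K.Alg

/-! The Monge-Ampere equation and the gradient bounds in every parametrisation. -/

open scoped ContDiff Topology
open Filter Set

namespace Pool.Agent.MP_67f0e4_gt.D1

open K

variable {n : ℕ}

theorem par2_sc (a : Fin n → ℂ) : sc 1 a = a := by
  funext j
  simp [sc]

theorem par2_pL (hK : KsF n) (a : Fin n → ℂ) : ContDiff ℝ ∞ (pL a) :=
  contDiff_const.mul ((hK.smooth a).comp (contDiff_const.prodMk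
    ((contDiff_const.mul (Complex.reCLM.contDiff.comp contDiff_fst)).prodMk contDiff_snd)))

theorem par2_re {x x₀ : ℂ} (h : x ≠ 0) (h₀ : x₀ ≠ 0) :
    2 * (Complex.log (x / x₀) + Complex.log x₀).re = Real.log (‖x‖ ^ 2) := by
  rw [Complex.add_re, Complex.log_re, Complex.log_re, norm_div,
    Real.log_div (norm_ne_zero_iff.2 h) (norm_ne_zero_iff.2 h₀), Real.log_pow]
  push_cast
  ring

theorem par2_dt (c : ℂ) (A B : V →L[ℂ] ℂ) : dt (c • A) B = c * dt A B := by
  simp only [dt, smul_apply, smul_eq_mul]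
  ring

theorem spar2 : SPAR2 := by
  intro n _ hK hC hL a
  obtain ⟨C, hL⟩ := hL a
  refine ⟨C, fun N U hP u hu hx => ?_⟩
  have hU := hP.op.mem_nhds hu
  have hN : ContDiffAt ℂ ∞ N u := hP.hol.contDiffAt hU
  have h0 : (∞ : WithTop ℕ∞) ≠ 0 := by simp
  have hs : (N u).1 / (N u).1 ∈ Complex.slitPlane := by
    rw [div_self hx]
    exact Complex.one_mem_slitPlane
  let T : V → V := fun w => (Complex.log ((N w).1 / (N u).1) + Complex.log (N u).1, (N w).2.2)
  have hT : ContDiffAt ℂ ∞ T u :=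
    (((Complex.contDiffAt_log hs).comp u (f := fun w => (N w).1 / (N u).1)
      (hN.fst.div_const _)).add contDiffAt_const).prodMk hN.snd.snd
  have hev : psi a ∘ N =ᶠ[𝓝 u] fun w => pL a (T w) := by
    filter_upwards [hU, hN.fst.continuousAt.eventually_ne hx] with w h1 h2
    have h3 := (hK.psix a 1 (N w) (by rw [par2_sc]; exact hP.mem h1) h2).2
    rw [par2_sc, ← par2_re h2 hx] at h3
    exact h3
  have hd : fderiv ℂ (fun w => (T w).1) u = ((N u).1)⁻¹ • fderiv ℂ (fun y => (N y).1) u := by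
    have h1 := ((((hN.fst.differentiableAt h0).hasFDerivAt.mul_const ((N u).1)⁻¹).clog
      hs).add_const (Complex.log (N u).1)).fderiv
    rw [mul_inv_cancel₀ hx, inv_one, one_smul] at h1
    exact h1
  have h2 : ContDiffAt ℝ 2 (pL a) (T u) :=
    (par2_pL hK a).contDiffAt.of_le (WithTop.coe_le_coe.2 (le_top (a := (2 : ℕ∞))))
  have e1 := hC.det _ T u h2 hT
  have e2 := hC.mix _ T u h2 hT
  have e3 := hC.qf _ T u h2 hT
  obtain ⟨g1, g2⟩ := hC.germ _ _ u hev
  have e4 : psi a (N u) = pL a (T u) := hev.self_of_nhds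
  obtain ⟨l1, l2, l3, l4⟩ := hL (T u)
  rw [← g1] at e1 e3
  rw [← g1, ← g2] at e2
  rw [l2] at e1
  have hδ := sq_nonneg ‖dt (fderiv ℂ (fun w => (T w).1) u) (fderiv ℂ (fun w => (T w).2) u)‖
  refine ⟨fun v => by rw [e3]; exact l1.nn _, ?_, ?_, ?_⟩
  · have hx' : ‖(N u).1‖ ≠ 0 := norm_ne_zero_iff.2 hx
    rw [e1, hd, par2_dt, norm_mul, norm_inv]
    show _ = 16 * ‖dt (fderiv ℂ (fun y => (N y).1) u) (fderiv ℂ (fun w => (T w).2) u)‖ ^ 2
    field_simp
  · rw [e1, e2, e4]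
    linarith [mul_le_mul_of_nonneg_left l3 hδ]
  · rw [e1, e2, e4]
    linarith [mul_le_mul_of_nonneg_left l4 hδ]

/-- a closed condition passes to the closure -/
theorem par2_le {p : V → Prop} {F G : V → ℝ} {u : V} (hp : ∃ᶠ w in 𝓝 u, p w)
    (hF : ContinuousAt F u) (hG : ContinuousAt G u) (h : ∀ᶠ w in 𝓝 u, p w → F w ≤ G w) :
    F u ≤ G u := by
  by_contra hlt
  obtain ⟨w, h1, h2, h3⟩ := (hp.and_eventually (h.and (hG.eventually_lt hF (not_le.1 hlt)))).exists
  exact absurd (h2 h1) (not_le.2 h3)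

theorem par2_cqf (v : V) : Continuous fun g : Hm => qf g v := by
  unfold qf bf
  fun_prop

theorem par2_cdet : Continuous hdet := by
  unfold hdet
  fun_prop

theorem par2_cmix : Continuous fun p : Hm × Hm => hmix p.1 p.2 := by
  unfold hmix
  fun_prop

theorem srf2 : SRF2 := by
  intro n _ hC hS hD hV hP a ha
  obtain ⟨C, hP⟩ := hP a
  have hs : ∀ N U, Par (Xs a) N U → ∀ u ∈ U, ContDiffAt ℝ ∞ (psi a ∘ N) u :=
    fun N U h u hu => (hS a ha N U h).contDiffAt (h.op.mem_nhds hu)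
  have hdet' : ∀ N U, Par (Xs a) N U → ∀ u ∈ U,
      ContinuousAt (fun w => hdet (lv (psi a ∘ N) w)) u := fun N U h u hu =>
    par2_cdet.continuousAt.comp (hC.cont _ u (hs N U h u hu)).1
  refine ⟨⟨hS a ha, fun N U h u hu => ?_⟩, C, fun N U h u hu => ?_⟩
  · obtain ⟨J, hJ, hJ0, hJe⟩ := hV a ha N U h u hu
    have hU : ∀ᶠ w in 𝓝 u, w ∈ U := h.op.mem_nhds hu
    have hJ1 : ∀ᶠ w in 𝓝 u, ContDiffAt ℂ 1 J w :=
      (hJ.of_le (by exact_mod_cast le_top)).eventually (by simp)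
    have hev : ∀ᶠ w in 𝓝 u, hdet (lv (psi a ∘ N) w) = 16 * ‖J w‖ ^ 2 := by
      filter_upwards [hU, hJ1, (hU.and hJe).eventually_nhds] with w h1 h2 h3
      have h4 : ContinuousAt (fun y => 16 * ‖J y‖ ^ 2) w :=
        continuousAt_const.mul (h2.continuousAt.norm.pow 2)
      have h5 : ∀ᶠ y in 𝓝 w, (N y).1 ≠ 0 → hdet (lv (psi a ∘ N) y) = 16 * ‖J y‖ ^ 2 := by
        filter_upwards [h3] with y hy hx
        have h6 := (hP N U h y hy.1 hx).2.1
        rw [hy.2, norm_mul] at h6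
        refine mul_left_cancel₀ (pow_ne_zero 2 (norm_ne_zero_iff.2 hx)) ?_
        rw [h6]
        ring
      exact le_antisymm
        (par2_le (hD a ha N U h w h1) (hdet' N U h w h1) h4 (h5.mono fun y hy hx => (hy hx).le))
        (par2_le (hD a ha N U h w h1) h4 (hdet' N U h w h1) (h5.mono fun y hy hx => (hy hx).ge))
    refine ⟨hC.posdet _ (fun v => ?_) ?_, ?_⟩
    · exact par2_le (F := fun _ => 0) (G := fun w => qf (lv (psi a ∘ N) w) v)
        (hD a ha N U h u hu) continuousAt_const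
        ((par2_cqf v).continuousAt.comp (hC.cont _ u (hs N U h u hu)).1)
        (hU.mono fun w hw hx => (hP N U h w hw hx).1 v)
    · rw [hev.self_of_nhds]
      have := norm_pos_iff.2 hJ0
      positivity
    · rw [← hC.plh J 16 u hJ hJ0 (by norm_num)]
      exact (hC.germ _ _ u (hev.mono fun w hw => congrArg Real.log hw)).1
  · have hU : ∀ᶠ w in 𝓝 u, w ∈ U := h.op.mem_nhds hu
    have h1 : ContinuousAt (fun w => hmix (lv (psi a ∘ N) w) (rk (psi a ∘ N) w)) u :=
      par2_cmix.continuousAt.comp (f := fun w => (lv (psi a ∘ N) w, rk (psi a ∘ N) w))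
        ((hC.cont _ u (hs N U h u hu)).1.prodMk (hC.cont _ u (hs N U h u hu)).2)
    have h2 : ContinuousAt (fun w => psi a (N w)) u := (hs N U h u hu).continuousAt
    exact ⟨par2_le (hD a ha N U h u hu) h1 (h2.mul (hdet' N U h u hu))
        (hU.mono fun w hw hx => (hP N U h w hw hx).2.2.1),
      par2_le (hD a ha N U h u hu) ((h2.sub continuousAt_const).mul (hdet' N U h u hu)) h1
        (hU.mono fun w hw hx => (hP N U h w hw hx).2.2.2)⟩

theorem sgrad : SGRAD := by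
  intro n a hR ⟨C, hQ⟩ N U h x hx v
  have hp := (hR.2 N U h x hx).1
  have h1 := qf_le_tr hp (nn_rk (psi a ∘ N) x) v
  have h2 := (div_le_iff₀ hp.det).2 (hQ N U h x hx).1
  have h3 := mul_le_mul_of_nonneg_right h2 (hp.nn v)
  rw [qf_rk] at h1
  linarith [sq_nonneg (D (Complex.I • v) (psi a ∘ N) x)]

end Pool.Agent.MP_67f0e4_gt.D1
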