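import Mathlib

/-! A complex smooth function on an open subset of a complex normed space is analytic. -/

open scoped ContDiff Topology Nat NNReal ENNReal
open Filter Set Metric

namespace Pool.Agent.MP_67f0e4_gt.D1

variable {E F : Type*} [NormedAddCommGroup E] [NormedSpace ℂ E] [NormedAddCommGroup F]
  [NormedSpace ℂ F]

theorem sm_diff_iter {f : E → F} {x : E} {R : ℝ} (hf : ∀ y ∈ ball x R, ContDiffAt ℂ ∞ f y)
    (k : ℕ) {y : E} (hy : y ∈ ball x R) : DifferentiableAt ℂ (iteratedFDeriv ℂ k f) y :=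
  (hf y hy).differentiableAt_iteratedFDeriv (by exact_mod_cast ENat.coe_lt_top k)

theorem sm_line_deriv {G : Type*} [NormedAddCommGroup G] [NormedSpace ℂ G] {g : E → G}
    {y v : E} {t : ℂ} (hg : DifferentiableAt ℂ g (y + t • v)) :
    HasDerivAt (fun s : ℂ => g (y + s • v)) (fderiv ℂ g (y + t • v) v) t := by
  have a : HasDerivAt (fun s : ℂ => y + s • v) v t := by
    simpa using ((hasDerivAt_id t).smul_const v).const_add y
  exact hg.hasFDerivAt.comp_hasDerivAt t a

theorem sm_cauchy {f : E → F} {x : E} {R M : ℝ} (hf : ∀ y ∈ ball x R, ContDiffAt ℂ ∞ f y)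
    (hM : ∀ y ∈ ball x R, ‖f y‖ ≤ M) {δ : ℝ} (hδ : 0 < δ) :
    ∀ k : ℕ, ∀ y, dist y x + k * δ < R → ‖iteratedFDeriv ℂ k f y‖ ≤ M / δ ^ k := by
  intro k
  induction k with
  | zero =>
    intro y hy
    simp only [Nat.cast_zero, zero_mul, add_zero] at hy
    simpa using hM y hy
  | succ k ih =>
    intro y hy
    have hM0 : 0 ≤ M := by
      have : y ∈ ball x R := by
        have : (0 : ℝ) ≤ ((k + 1 : ℕ) : ℝ) * δ := by positivity
        rw [mem_ball]
        linarith
      exact (norm_nonneg _).trans (hM y this)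
    rw [← norm_fderiv_iteratedFDeriv]
    refine ContinuousLinearMap.opNorm_le_of_unit_norm (by positivity) ?_
    intro v hv
    have hin : ∀ t : ℂ, ‖t‖ ≤ δ → dist (y + t • v) x + k * δ < R := by
      intro t ht
      have h1 : dist (y + t • v) x ≤ dist (y + t • v) y + dist y x := dist_triangle _ _ _
      have h2 : dist (y + t • v) y = ‖t‖ := by
        rw [dist_eq_norm, add_sub_cancel_left, norm_smul, hv, mul_one]
      push_cast at hy
      linarith
    have hin' : ∀ t : ℂ, ‖t‖ ≤ δ → y + t • v ∈ ball x R := by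
      intro t ht
      have := hin t ht
      have h0 : (0 : ℝ) ≤ k * δ := by positivity
      rw [mem_ball]
      linarith
    have hd : DiffContOnCl ℂ (fun s : ℂ => iteratedFDeriv ℂ k f (y + s • v)) (ball 0 δ) := by
      apply DifferentiableOn.diffContOnCl
      rw [closure_ball 0 hδ.ne']
      intro t ht
      exact (sm_line_deriv (sm_diff_iter hf k (hin' t (by simpa using ht)))).differentiableAt.differentiableWithinAt
    have h3 := Complex.norm_deriv_le_of_forall_mem_sphere_norm_le hδ hd (C := M / δ ^ k)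
      (fun t ht => ih _ (hin t (by simpa using (mem_sphere_zero_iff_norm.1 ht).le)))
    rw [(sm_line_deriv (sm_diff_iter hf k (hin' 0 (by simpa using hδ.le)))).deriv] at h3
    simp only [zero_smul, add_zero] at h3
    rw [pow_succ, ← div_div]
    exact h3

theorem sm_analyticAt [CompleteSpace F] {f : E → F} {U : Set E} (hU : IsOpen U)
    (hf : ContDiffOn ℂ ∞ f U) {x : E} (hx : x ∈ U) : AnalyticAt ℂ f x := by
  have hc : ContinuousAt f x := (hf.contDiffAt (hU.mem_nhds hx)).continuousAt
  have h1 : ∀ᶠ y in 𝓝 x, y ∈ U ∧ ‖f y‖ ≤ ‖f x‖ + 1 := by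
    refine (hU.eventually_mem hx).and ?_
    exact (hc.norm.eventually (gt_mem_nhds (lt_add_one ‖f x‖))).mono fun y hy => hy.le
  obtain ⟨R, hR, hb⟩ := Metric.eventually_nhds_iff_ball.1 h1
  have hs : ∀ y ∈ ball x R, ContDiffAt ℂ ∞ f y := fun y hy =>
    hf.contDiffAt (hU.mem_nhds (hb y hy).1)
  obtain ⟨M, hM, hM0⟩ : ∃ M, (∀ y ∈ ball x R, ‖f y‖ ≤ M) ∧ 0 ≤ M :=
    ⟨_, fun y hy => (hb y hy).2, by positivity⟩
  obtain ⟨r, hr⟩ : ∃ r : ℝ≥0, (r : ℝ) = R / 6 := ⟨⟨_, by positivity⟩, rfl⟩
  have r0 : (0 : ℝ) < r := by rw [hr]; positivity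
  let p : FormalMultilinearSeries ℂ E F := fun n => ((n ! : ℂ)⁻¹) • iteratedFDeriv ℂ n f x
  have hp : (r : ℝ≥0∞) ≤ p.radius := p.le_radius_of_bound M fun n => by
    rcases Nat.eq_zero_or_pos n with rfl | hn
    · simpa [p] using hM x (mem_ball_self hR)
    have hn' : (0 : ℝ) < n := by exact_mod_cast hn
    have h2 := sm_cauchy hs hM (δ := R / (2 * n)) (by positivity) n x (by
      rw [dist_self, zero_add]
      have : (n : ℝ) * (R / (2 * n)) = R / 2 := by field_simp
      linarith)
    have h3 : (n : ℝ) ^ n / n ! ≤ 3 ^ n := by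
      refine (Real.pow_div_factorial_le_exp _ hn'.le n).trans ?_
      rw [← Real.exp_one_pow]
      exact pow_le_pow_left₀ (Real.exp_pos 1).le (by linarith [Real.exp_one_lt_d9]) n
    have h4 : ‖p n‖ ≤ (n ! : ℝ)⁻¹ * (M / (R / (2 * n)) ^ n) := by
      simp only [p]
      rw [norm_smul, norm_inv, Complex.norm_natCast]
      exact mul_le_mul_of_nonneg_left h2 (by positivity)
    refine (mul_le_mul_of_nonneg_right h4 (by positivity)).trans ?_
    have h5 : (n ! : ℝ)⁻¹ * (M / (R / (2 * n)) ^ n) * (r : ℝ) ^ n =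
        M * ((n : ℝ) ^ n / n ! / 3 ^ n) := by
      rw [hr, div_pow, div_pow, mul_pow, show (6 : ℝ) = 2 * 3 by norm_num, mul_pow]
      field_simp
    rw [h5]
    exact mul_le_of_le_one_right hM0 ((div_le_one (by positivity)).2 h3)
  refine ⟨p, r, hp, by exact_mod_cast r0, fun {y} hy => ?_⟩
  have hy' : ‖y‖ < r := by simpa [enorm, ← NNReal.coe_lt_coe] using hy
  have hin : ∀ t ∈ ball (0 : ℂ) 2, x + t • y ∈ ball x R := by
    intro t ht
    rw [mem_ball_zero_iff] at ht
    rw [mem_ball, dist_eq_norm, add_sub_cancel_left, norm_smul]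
    nlinarith [norm_nonneg t, norm_nonneg y]
  have hit : ∀ k : ℕ, ∀ t ∈ ball (0 : ℂ) 2, iteratedDeriv k (fun s : ℂ => f (x + s • y)) t =
      iteratedFDeriv ℂ k f (x + t • y) fun _ => y := by
    intro k
    induction k with
    | zero => intro t _; simp
    | succ k ih =>
      intro t ht
      rw [iteratedDeriv_succ]
      have e : iteratedDeriv k (fun s : ℂ => f (x + s • y)) =ᶠ[𝓝 t]
          fun s => iteratedFDeriv ℂ k f (x + s • y) fun _ => y :=
        (isOpen_ball.eventually_mem ht).mono fun s hs' => ih s hs'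
      rw [e.deriv_eq]
      have b := sm_line_deriv (sm_diff_iter hs k (hin t ht))
      exact (((ContinuousMultilinearMap.apply ℂ (fun _ : Fin k => E) F
        fun _ => y).hasFDerivAt).comp_hasDerivAt t b).deriv
  have hd : DifferentiableOn ℂ (fun s : ℂ => f (x + s • y)) (ball 0 2) := fun t ht =>
    (sm_line_deriv ((hs _ (hin t ht)).differentiableAt (by simp))).differentiableAt.differentiableWithinAt
  have h6 := Complex.hasSum_taylorSeries_on_ball hd (z := 1) (by simp)
  simp only [sub_zero, one_pow, one_smul, hit _ 0 (by simp), zero_smul, add_zero] at h6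
  exact h6

end Pool.Agent.MP_67f0e4_gt.D1
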