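import Pool.Agent.MP_67f0e4_gt.D1.Spec
import Pool.Agent.MP_67f0e4_gt.D1.RSM_a

/-! Smoothness of the potential on the surface; the holomorphic volume form. -/

open scoped ContDiff Topology ComplexConjugate
open Filter Set

namespace Pool.Agent.MP_67f0e4_gt.D1

open K

noncomputable section

variable {n : ℕ}

theorem sm_sc_one (a : Fin n → ℂ) : sc 1 a = a := by
  funext j
  simp [sc]

theorem sm_psix (hK : KsF n) (a : Fin n → ℂ) {p : C3} (hp : p ∈ Xs a) (h : p.1 ≠ 0) :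
    psi a p = 2 * KK a (1, Real.log (‖p.1‖ ^ 2), p.2.2) := by
  have := (hK.psix a 1 p (by rw [sm_sc_one]; exact hp) h).2
  rwa [sm_sc_one] at this

theorem sm_aux (hK : KsF n) (a : Fin n → ℂ) {x z : V → ℂ} {u : V} (hx : ContDiffAt ℝ ∞ x u)
    (hz : ContDiffAt ℝ ∞ z u) (h : x u ≠ 0) :
    ContDiffAt ℝ ∞ (fun w => 2 * KK a (1, Real.log (‖x w‖ ^ 2), z w)) u := by
  have h1 : ContDiffAt ℝ ∞ (fun w => Real.log (‖x w‖ ^ 2)) u :=
    (hx.norm_sq ℝ).log (pow_ne_zero 2 (norm_ne_zero_iff.2 h))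
  exact contDiffAt_const.mul ((hK.smooth a).contDiffAt.comp u
    (contDiffAt_const.prodMk (h1.prodMk hz)))

theorem sm_centre (a : Fin n → ℂ) {p : C3} (hp : p ∈ Xs a) (h : p.1 = 0) :
    ∃ j, p.2.2 = a j := by
  have h1 : p.1 * p.2.1 = Pz a p.2.2 := hp
  rw [h, zero_mul] at h1
  obtain ⟨j, -, hj⟩ := Finset.prod_eq_zero_iff.1 h1.symm
  exact ⟨j, sub_eq_zero.1 hj⟩

theorem ssm : SSM := by
  intro n _ _ hP hK hC a ha N U hN u hu
  apply ContDiffAt.contDiffWithinAt
  have hU := hN.op.mem_nhds hu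
  have hs : ContDiffAt ℝ ∞ N u := (hN.hol.contDiffAt hU).restrict_scalars ℝ
  have hm : ∀ᶠ w in 𝓝 u, N w ∈ Xs a := mem_of_superset hU fun w hw => hN.mem hw
  by_cases hx : (N u).1 ≠ 0
  · refine (sm_aux hK a hs.fst hs.snd.snd hx).congr_of_eventuallyEq ?_
    filter_upwards [hm, hs.fst.continuousAt.eventually_ne hx] with w h1 h2
    exact sm_psix hK a h1 h2
  by_cases hy : (N u).2.1 ≠ 0
  · refine (sm_aux hK a hs.snd.fst hs.snd.snd hy).congr_of_eventuallyEq ?_
    filter_upwards [hm, hs.snd.fst.continuousAt.eventually_ne hy] with w h1 h2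
    have h3 : swap (N w) ∈ Xs a := by
      have h4 : (N w).1 * (N w).2.1 = Pz a (N w).2.2 := h1
      show (N w).2.1 * (N w).1 = Pz a (N w).2.2
      rw [mul_comm, h4]
    have := sm_psix hK a h3 h2
    rw [(hP.swap a (N w)).2] at this
    exact this
  rw [not_not] at hx hy
  obtain ⟨j, hj⟩ := sm_centre a (hN.mem hu) hx
  have e : N u = (0, 0, a j) := Prod.ext hx (Prod.ext hy hj)
  obtain ⟨f, hf, hf'⟩ := hC a ha j
  have ht : Tendsto N (𝓝 u) (𝓝[Xs a] ((0, 0, a j) : C3)) :=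
    tendsto_nhdsWithin_iff.2 ⟨e ▸ hs.continuousAt, hm⟩
  refine (ContDiffAt.comp u (e ▸ hf) hs).congr_of_eventuallyEq ?_
  exact ht.eventually hf'

theorem sm_Pz_analytic (a : Fin n → ℂ) (z : ℂ) : AnalyticAt ℂ (Pz a) z := by
  have : Differentiable ℂ (Pz a) := by
    unfold Pz
    fun_prop
  exact this.analyticAt z

theorem sm_Pz_deriv (a : Fin n → ℂ) (ha : Function.Injective a) (j : Fin n) :
    deriv (Pz a) (a j) ≠ 0 := by
  classical
  have e : Pz a = fun z => (z - a j) * ∏ i ∈ Finset.univ.erase j, (z - a i) := by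
    funext z
    unfold Pz
    rw [Finset.mul_prod_erase _ (fun i => z - a i) (Finset.mem_univ j)]
  have hQ : DifferentiableAt ℂ (fun z => ∏ i ∈ Finset.univ.erase j, (z - a i)) (a j) := by
    fun_prop
  have h1 := (((hasDerivAt_id (a j)).sub_const (a j)).fun_mul hQ.hasDerivAt).deriv
  simp only [id, sub_self, zero_mul, add_zero, one_mul] at h1
  rw [e, h1]
  refine Finset.prod_ne_zero_iff.2 fun i hi => sub_ne_zero.2 fun h => ?_
  exact (Finset.mem_erase.1 hi).1 (ha h).symm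

theorem sm_dt_kernel {A B : V →L[ℂ] ℂ} (h : dt A B = 0) : ∃ v : V, v ≠ 0 ∧ A v = 0 ∧ B v = 0 := by
  have lin : ∀ (L : V →L[ℂ] ℂ) (s t : ℂ), L (s, t) = s * L (1, 0) + t * L (0, 1) := by
    intro L s t
    have : ((s, t) : V) = s • ((1, 0) : V) + t • ((0, 1) : V) := by simp
    rw [this, map_add, map_smul, map_smul, smul_eq_mul, smul_eq_mul]
  unfold dt at h
  by_cases hA : ((A (0, 1), -A (1, 0)) : V) = 0
  · have a1 : A (0, 1) = 0 := congrArg Prod.fst hA
    have a0 : A (1, 0) = 0 := neg_eq_zero.1 (congrArg Prod.snd hA)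
    by_cases hB : ((B (0, 1), -B (1, 0)) : V) = 0
    · have b0 : B (1, 0) = 0 := neg_eq_zero.1 (congrArg Prod.snd hB)
      exact ⟨(1, 0), by simp, a0, b0⟩
    · refine ⟨_, hB, ?_, ?_⟩
      · rw [lin A, a0, a1]; ring
      · rw [lin B]; ring
  · refine ⟨_, hA, ?_, ?_⟩
    · rw [lin A]; ring
    · rw [lin B]; linear_combination -h

theorem sm_dt_analytic {f g : V → ℂ} {u : V} (hf : AnalyticAt ℂ f u) (hg : AnalyticAt ℂ g u) :
    AnalyticAt ℂ (fun w => dt (fderiv ℂ f w) (fderiv ℂ g w)) u := by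
  have key : ∀ {f : V → ℂ}, AnalyticAt ℂ f u → ∀ v : V,
      AnalyticAt ℂ (fun w => fderiv ℂ f w v) u := by
    intro f hf v
    exact ((ContinuousLinearMap.apply ℂ ℂ v).analyticAt _).comp hf.fderiv
  unfold dt
  exact ((key hf _).mul (key hg _)).sub ((key hf _).mul (key hg _))

/-- The differentiated equation of the surface. -/
theorem sm_rel {a : Fin n → ℂ} {N : V → C3} {U : Set V} (hN : Par (Xs a) N U) {w : V}
    (hw : w ∈ U) (v : V) :
    (N w).1 * fderiv ℂ (fun y => (N y).2.1) w v + (N w).2.1 * fderiv ℂ (fun y => (N y).1) w v =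
      deriv (Pz a) (N w).2.2 * fderiv ℂ (fun y => (N y).2.2) w v := by
  have hU := hN.op.mem_nhds hw
  have hd : DifferentiableAt ℂ N w := (hN.hol.contDiffAt hU).differentiableAt (by simp)
  have e : (fun y => (N y).1 * (N y).2.1) =ᶠ[𝓝 w] fun y => Pz a (N y).2.2 :=
    mem_of_superset hU fun y hy => hN.mem hy
  have h1 := hd.fst.hasFDerivAt.fun_mul hd.snd.fst.hasFDerivAt
  have h2 := (sm_Pz_analytic a (N w).2.2).differentiableAt.hasDerivAt.comp_hasFDerivAt w
    hd.snd.snd.hasFDerivAt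
  have h3 := (h1.congr_of_eventuallyEq e.symm).unique h2
  have h4 := congrArg (fun L : V →L[ℂ] ℂ => L v) h3
  simpa using h4

theorem sm_kill {a : Fin n → ℂ} {N : V → C3} {U : Set V} (hN : Par (Xs a) N U) {w : V}
    (hw : w ∈ U) {v : V} (h1 : fderiv ℂ (fun y => (N y).1) w v = 0)
    (h2 : fderiv ℂ (fun y => (N y).2.1) w v = 0) (h3 : fderiv ℂ (fun y => (N y).2.2) w v = 0) :
    v = 0 := by
  have hU := hN.op.mem_nhds hw
  have hd : DifferentiableAt ℂ N w := (hN.hol.contDiffAt hU).differentiableAt (by simp)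
  rw [hd.hasFDerivAt.fst.fderiv] at h1
  rw [hd.hasFDerivAt.snd.fst.fderiv] at h2
  rw [hd.hasFDerivAt.snd.snd.fderiv] at h3
  apply hN.inj w hw
  rw [map_zero]
  exact Prod.ext h1 (Prod.ext h2 h3)

theorem sm_den (n : ℕ) : DenF n := by
  intro a ha N U hN u hu hne
  have hx : ∀ᶠ w in 𝓝 u, (N w).1 = 0 := hne.mono fun w hw => not_not.1 hw
  have hU := hN.op.mem_nhds hu
  have hc : ContinuousAt N u := (hN.hol.contDiffAt hU).continuousAt
  obtain ⟨j, hj⟩ := sm_centre a (hN.mem hu) hx.self_of_nhds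
  have hfin : ∀ᶠ w in 𝓝 u, ∀ i, i ≠ j → (N w).2.2 ≠ a i := by
    refine eventually_all.2 fun i => ?_
    by_cases hi : i = j
    · exact Eventually.of_forall fun w h => absurd hi h
    · have : (N u).2.2 ≠ a i := by
        rw [hj]
        exact fun h => hi (ha h).symm
      exact (hc.snd.snd.eventually_ne this).mono fun w hw _ => hw
  have hz : (fun w => (N w).2.2) =ᶠ[𝓝 u] fun _ => a j := by
    filter_upwards [hx, hfin, hU] with w h1 h2 h3
    obtain ⟨i, hi⟩ := sm_centre a (hN.mem h3) h1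
    by_cases hij : i = j
    · rw [hi, hij]
    · exact absurd hi (h2 i hij)
  have hx' : (fun w => (N w).1) =ᶠ[𝓝 u] fun _ => (0 : ℂ) := hx
  have d1 : fderiv ℂ (fun w => (N w).1) u = 0 := by rw [hx'.fderiv_eq]; simp
  have d3 : fderiv ℂ (fun w => (N w).2.2) u = 0 := by rw [hz.fderiv_eq]; simp
  obtain ⟨v, hv, -, hB⟩ := sm_dt_kernel (A := 0) (B := fderiv ℂ (fun w => (N w).2.1) u)
    (by simp [dt])
  exact hv (sm_kill hN hu (by rw [d1]; rfl) hB (by rw [d3]; rfl))

theorem sm_vol (n : ℕ) : VolF n := by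
  intro a ha N U hN u hu
  have hU := hN.op.mem_nhds hu
  have hA : AnalyticAt ℂ N u := sm_analyticAt hN.op hN.hol hu
  have hX : AnalyticAt ℂ (fun w => (N w).1) u := analyticAt_fst.comp hA
  have hY : AnalyticAt ℂ (fun w => (N w).2.1) u := analyticAt_fst.comp (analyticAt_snd.comp hA)
  have hZ : AnalyticAt ℂ (fun w => (N w).2.2) u := analyticAt_snd.comp (analyticAt_snd.comp hA)
  by_cases hx : (N u).1 ≠ 0
  · refine ⟨fun w => dt (fderiv ℂ (fun y => (N y).1) w) (fderiv ℂ (fun y => (N y).2.2) w) /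
      (N w).1, (sm_dt_analytic hX hZ).div hX hx, div_ne_zero (fun h => ?_) hx, ?_⟩
    · obtain ⟨v, hv, h1, h3⟩ := sm_dt_kernel h
      have r := sm_rel hN hu v
      rw [h1, h3, mul_zero, mul_zero, add_zero] at r
      exact hv (sm_kill hN hu h1 ((mul_eq_zero.1 r).resolve_left hx) h3)
    · filter_upwards [hX.continuousAt.eventually_ne hx] with w hw
      field_simp
  by_cases hy : (N u).2.1 ≠ 0
  · refine ⟨fun w => -dt (fderiv ℂ (fun y => (N y).2.1) w) (fderiv ℂ (fun y => (N y).2.2) w) /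
      (N w).2.1, (sm_dt_analytic hY hZ).neg.div hY hy,
      div_ne_zero (fun h => ?_) hy, ?_⟩
    · obtain ⟨v, hv, h2, h3⟩ := sm_dt_kernel (neg_eq_zero.1 h)
      have r := sm_rel hN hu v
      rw [h2, h3, mul_zero, mul_zero, zero_add] at r
      exact hv (sm_kill hN hu ((mul_eq_zero.1 r).resolve_left hy) h2 h3)
    · filter_upwards [hY.continuousAt.eventually_ne hy, hU] with w hw hw'
      have r0 := sm_rel hN hw' (1, 0)
      have r1 := sm_rel hN hw' (0, 1)
      unfold dt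
      field_simp
      linear_combination (fderiv ℂ (fun y => (N y).2.2) w (0, 1)) * r0 -
        (fderiv ℂ (fun y => (N y).2.2) w (1, 0)) * r1
  rw [not_not] at hx hy
  obtain ⟨j, hj⟩ := sm_centre a (hN.mem hu) hx
  have hP : deriv (Pz a) (N u).2.2 ≠ 0 := by rw [hj]; exact sm_Pz_deriv a ha j
  have hPa : AnalyticAt ℂ (fun w => deriv (Pz a) (N w).2.2) u :=
    AnalyticAt.comp (g := deriv (Pz a)) (f := fun w => (N w).2.2)
      (sm_Pz_analytic a (N u).2.2).deriv hZ
  refine ⟨fun w => dt (fderiv ℂ (fun y => (N y).1) w) (fderiv ℂ (fun y => (N y).2.1) w) /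
    deriv (Pz a) (N w).2.2, (sm_dt_analytic hX hY).div hPa hP, div_ne_zero (fun h => ?_) hP, ?_⟩
  · obtain ⟨v, hv, h1, h2⟩ := sm_dt_kernel h
    have r := sm_rel hN hu v
    rw [h1, h2, mul_zero, mul_zero, add_zero] at r
    exact hv (sm_kill hN hu h1 h2 ((mul_eq_zero.1 r.symm).resolve_left hP))
  · filter_upwards [hPa.continuousAt.eventually_ne hP, hU] with w hw hw'
    have r0 := sm_rel hN hw' (1, 0)
    have r1 := sm_rel hN hw' (0, 1)
    unfold dt
    field_simp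
    linear_combination (fderiv ℂ (fun y => (N y).1) w (0, 1)) * r0 -
      (fderiv ℂ (fun y => (N y).1) w (1, 0)) * r1

theorem sden : SDEN := fun n _ => ⟨sm_den n, sm_vol n⟩

end

end Pool.Agent.MP_67f0e4_gt.D1
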