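import Pool.Agent.MP_67f0e4_gt.D1.Spec2
import Pool.Agent.MP_67f0e4_gt.D1.RSM

/-! The volume form statement with complex smoothness in place of analyticity. -/

namespace Pool.Agent.MP_67f0e4_gt.D1

theorem sden2 : SDEN2 := by
  intro n _
  refine ⟨sm_den n, fun a ha N U hN u hu => ?_⟩
  obtain ⟨J, h1, h2, h3⟩ := sm_vol n a ha N U hN u hu
  exact ⟨J, h1.contDiffAt, h2, h3⟩

end Pool.Agent.MP_67f0e4_gt.D1
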