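import Pool.Agent.MP_67f0e4_gt.D2.Spec
import Pool.Agent.MP_67f0e4_gt.H73.Red

/-! Block D1: the Gibbons-Hawking potential. Row statements. -/

open scoped ContDiff Topology ComplexConjugate
open Filter Set

namespace Pool.Agent.MP_67f0e4_gt.D1

open K

noncomputable section

variable {n : ℕ}

/-- The centres scaled by the real number `t`. -/
def sc (t : ℝ) (a : Fin n → ℂ) : Fin n → ℂ := fun j => (t : ℂ) * a j

/-- The point of the surface with coordinates `(x, z)`. -/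
def sx (a : Fin n → ℂ) (q : V) : C3 := (q.1, Pz a q.2 / q.1, q.2)

/-- The potential in the coordinates `(x, z)`, with the centres scaled by `t`. -/
def pot (a : Fin n → ℂ) (t : ℝ) (q : V) : ℝ := psi (sc t a) (sx (sc t a) q)

/-- The moment map as a function of `(t, log |x|², z)`. -/
def MU (a : Fin n → ℂ) (b : ℝ × ℝ × ℂ) : ℝ :=
  mu (sc b.1 a) (sx (sc b.1 a) ((Real.exp (b.2.1 / 2) : ℝ), b.2.2))

/-- Half the potential as a function of `(t, log |x|², z)`. -/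
def KK (a : Fin n → ℂ) (b : ℝ × ℝ × ℂ) : ℝ := ∑ j, rr (sc b.1 a) j (MU a b) b.2.2

/-- The defining equation of the moment map, for all centres. -/
structure MuF (n : ℕ) : Prop where
  eq : ∀ (a : Fin n → ℂ) (p : C3),
    ∏ j, (rr a j (mu a p) p.2.2 + mu a p) - ∏ j, (rr a j (mu a p) p.2.2 - mu a p) =
      ‖p.1‖ ^ 2 - ‖p.2.1‖ ^ 2
  mono : ∀ (a : Fin n → ℂ) (z : ℂ),
    StrictMono fun m : ℝ => ∏ j, (rr a j m z + m) - ∏ j, (rr a j m z - m)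
  uniq : ∀ (a : Fin n → ℂ) (p : C3) (m : ℝ),
    ∏ j, (rr a j m p.2.2 + m) - ∏ j, (rr a j m p.2.2 - m) = ‖p.1‖ ^ 2 - ‖p.2.1‖ ^ 2 → mu a p = m
  plus : ∀ (a : Fin n → ℂ), ∀ p ∈ Xs a, ∏ j, (rr a j (mu a p) p.2.2 + mu a p) = ‖p.1‖ ^ 2
  minus : ∀ (a : Fin n → ℂ), ∀ p ∈ Xs a, ∏ j, (rr a j (mu a p) p.2.2 - mu a p) = ‖p.2.1‖ ^ 2
  uniqx : ∀ (a : Fin n → ℂ), ∀ p ∈ Xs a, p.1 ≠ 0 → ∀ m : ℝ,
    ∏ j, (rr a j m p.2.2 + m) = ‖p.1‖ ^ 2 → mu a p = m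
  cont : ∀ a : Fin n → ℂ, Continuous (mu a)

def SMU : Prop := ∀ n : ℕ, 1 ≤ n → MuF n

/-- Symmetries, positivity and properness of the potential. -/
structure PsF (n : ℕ) : Prop where
  cont : ∀ a : Fin n → ℂ, Continuous (psi a)
  nonneg : ∀ (a : Fin n → ℂ) p, 0 ≤ psi a p
  posx : ∀ (a : Fin n → ℂ), ∀ p ∈ Xs a, p.1 ≠ 0 → 0 < psi a p
  pos : ∀ a : Fin n → ℂ, 2 ≤ n → Function.Injective a → ∃ c : ℝ, 0 < c ∧ ∀ p, c ≤ psi a p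
  circ : ∀ (a : Fin n → ℂ) (p p' : C3), ‖p'.1‖ = ‖p.1‖ → ‖p'.2.1‖ = ‖p.2.1‖ → p'.2.2 = p.2.2 →
    mu a p' = mu a p ∧ psi a p' = psi a p
  swap : ∀ (a : Fin n → ℂ) (p : C3), mu a (swap p) = -mu a p ∧ psi a (swap p) = psi a p
  rot : ∀ (a : Fin n → ℂ) (ζ : ℂ) (σ : Equiv.Perm (Fin n)), ‖ζ‖ = 1 → (∀ j, a (σ j) = ζ * a j) →
    ∀ p p' : C3, ‖p'.1‖ = ‖p.1‖ → ‖p'.2.1‖ = ‖p.2.1‖ → p'.2.2 = ζ * p.2.2 →
      mu a p' = mu a p ∧ psi a p' = psi a p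
  scale : ∀ (a : Fin n → ℂ) (c : ℝ), 0 < c → ∀ p : C3,
    psi (sc (c ^ 2) a) ((c : ℂ) ^ n * p.1, (c : ℂ) ^ n * p.2.1, (c : ℂ) ^ 2 * p.2.2) =
      c ^ 2 * psi a p
  closed : ∀ a : Fin n → ℂ, IsClosed (Xs a)
  proper : ∀ (a : Fin n → ℂ) (c : ℝ), IsCompact {p ∈ Xs a | psi a p ≤ c}
  zle : ∀ (a : Fin n → ℂ) (p : C3) j, 2 * ‖p.2.2 - a j‖ ≤ psi a p ∧ 2 * |mu a p| ≤ psi a p
  xle : ∀ (a : Fin n → ℂ), ∀ p ∈ Xs a, ‖p.1‖ ^ 2 ≤ psi a p ^ n ∧ ‖p.2.1‖ ^ 2 ≤ psi a p ^ n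
  cone : ∀ q : V, psi (fun _ : Fin n => (0 : ℂ)) (q.1 ^ n, q.2 ^ n, q.1 * q.2) =
    n * (Complex.normSq q.1 + Complex.normSq q.2)

def SPS : Prop := ∀ n : ℕ, 1 ≤ n → MuF n → PsF n

/-- For one centre the potential is the flat one. -/
def SONEC : Prop :=
  MuF 1 → ∀ (a : Fin 1 → ℂ), ∀ p ∈ Xs a, psi a p = ‖p.1‖ ^ 2 + ‖p.2.1‖ ^ 2

/-- The implicit function `MU` is smooth. -/
structure KsF (n : ℕ) : Prop where
  smoothMU : ∀ a : Fin n → ℂ, ContDiff ℝ ∞ (MU a)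
  smooth : ∀ a : Fin n → ℂ, ContDiff ℝ ∞ (KK a)
  up : ∀ (a : Fin n → ℂ) (t l : ℝ) (z : ℂ), ((MU a (t, l, z), z) : H73.P) ∈ H73.Up (sc t a) ∧
    H73.Th (sc t a) (MU a (t, l, z), z) = (l, z)
  inv : ∀ (a : Fin n → ℂ) (t : ℝ), ∀ q ∈ H73.Up (sc t a),
    MU a (t, H73.Th (sc t a) q) = q.1 ∧ KK a (t, H73.Th (sc t a) q) = H73.RR (sc t a) q
  pos : ∀ (a : Fin n → ℂ) b, 0 < KK a b
  psix : ∀ (a : Fin n → ℂ) (t : ℝ), ∀ p ∈ Xs (sc t a), p.1 ≠ 0 →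
    mu (sc t a) p = MU a (t, Real.log (‖p.1‖ ^ 2), p.2.2) ∧
      psi (sc t a) p = 2 * KK a (t, Real.log (‖p.1‖ ^ 2), p.2.2)
  potsm : ∀ a : Fin n → ℂ, ContDiffOn ℝ ∞ (fun b : ℝ × V => pot a b.1 b.2) {b | b.2.1 ≠ 0}

def SKS : Prop := ∀ n : ℕ, 1 ≤ n → MuF n → KsF n

/-- Near a centre the potential extends smoothly to the ambient space. -/
def CenF (n : ℕ) : Prop :=
  ∀ a : Fin n → ℂ, Function.Injective a → ∀ j, ∃ f : C3 → ℝ,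
    ContDiffAt ℝ ∞ f (0, 0, a j) ∧ ∀ᶠ p in 𝓝[Xs a] ((0, 0, a j) : C3), psi a p = f p

def SCEN : Prop := ∀ n : ℕ, 1 ≤ n → MuF n → CenF n

/-- The potential is smooth on the surface. -/
def SmF (n : ℕ) : Prop := ∀ a : Fin n → ℂ, Function.Injective a → XSm0 (Xs a) (psi a)

def SSM : Prop := ∀ n : ℕ, 1 ≤ n → MuF n → PsF n → KsF n → CenF n → SmF n

/-- The potential in the coordinates `(log x, z)`. -/
def pL (a : Fin n → ℂ) (q : V) : ℝ := 2 * KK a (1, 2 * q.1.re, q.2)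

/-- Monge-Ampere equation and gradient bounds in the coordinates `(log x, z)`. -/
def LogF (n : ℕ) : Prop :=
  ∀ a : Fin n → ℂ, ∃ C : ℝ, ∀ q : V, Pos (lv (pL a) q) ∧ hdet (lv (pL a) q) = 16 ∧
    hmix (lv (pL a) q) (rk (pL a) q) ≤ 16 * pL a q ∧
    16 * (pL a q - C) ≤ hmix (lv (pL a) q) (rk (pL a) q)

def SLOG : Prop := ∀ n : ℕ, 1 ≤ n → KsF n → LogF n

/-- The determinant of a complex linear map of the plane, given by its two components. -/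
def dt (A B : V →L[ℂ] ℂ) : ℂ := A (1, 0) * B (0, 1) - A (0, 1) * B (1, 0)

/-- Change of holomorphic coordinates. -/
structure ChF : Prop where
  det : ∀ (f : V → ℝ) (T : V → V) (u : V), ContDiffAt ℝ 2 f (T u) → AnalyticAt ℂ T u →
    hdet (lv (fun w => f (T w)) u) =
      ‖dt (fderiv ℂ (fun w => (T w).1) u) (fderiv ℂ (fun w => (T w).2) u)‖ ^ 2 * hdet (lv f (T u))
  mix : ∀ (f : V → ℝ) (T : V → V) (u : V), ContDiffAt ℝ 2 f (T u) → AnalyticAt ℂ T u →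
    hmix (lv (fun w => f (T w)) u) (rk (fun w => f (T w)) u) =
      ‖dt (fderiv ℂ (fun w => (T w).1) u) (fderiv ℂ (fun w => (T w).2) u)‖ ^ 2 *
        hmix (lv f (T u)) (rk f (T u))
  qf : ∀ (f : V → ℝ) (T : V → V) (u : V), ContDiffAt ℝ 2 f (T u) → AnalyticAt ℂ T u →
    ∀ v, qf (lv (fun w => f (T w)) u) v = qf (lv f (T u)) (fderiv ℂ T u v)
  germ : ∀ (f g : V → ℝ) (u : V), f =ᶠ[𝓝 u] g → lv f u = lv g u ∧ rk f u = rk g u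
  cont : ∀ (f : V → ℝ) (u : V), ContDiffAt ℝ ∞ f u →
    ContinuousAt (fun w => lv f w) u ∧ ContinuousAt (fun w => rk f w) u
  plh : ∀ (J : V → ℂ) (c : ℝ) (u : V), AnalyticAt ℂ J u → J u ≠ 0 → 0 < c →
    lv (fun w => Real.log (c * ‖J w‖ ^ 2)) u = 0
  posdet : ∀ g : Hm, NN g → 0 < hdet g → Pos g

def SCH : Prop := D2.LevF → ChF

/-- The set `x ≠ 0` is dense in every parametrisation. -/
def DenF (n : ℕ) : Prop :=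
  ∀ a : Fin n → ℂ, Function.Injective a → ∀ N U, Par (Xs a) N U → ∀ u ∈ U,
    ∃ᶠ w in 𝓝 u, (N w).1 ≠ 0

/-- At every point of a parametrisation the holomorphic volume form is a nonvanishing holomorphic
function. -/
def VolF (n : ℕ) : Prop :=
  ∀ a : Fin n → ℂ, Function.Injective a → ∀ N U, Par (Xs a) N U → ∀ u ∈ U,
    ∃ J : V → ℂ, AnalyticAt ℂ J u ∧ J u ≠ 0 ∧ ∀ᶠ w in 𝓝 u,
      dt (fderiv ℂ (fun y => (N y).1) w) (fderiv ℂ (fun y => (N y).2.2) w) = (N w).1 * J w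

def SDEN : Prop := ∀ n : ℕ, 1 ≤ n → DenF n ∧ VolF n

/-- Monge-Ampere equation and gradient bounds in a parametrisation, where `x ≠ 0`. -/
def ParF (n : ℕ) : Prop :=
  ∀ a : Fin n → ℂ, ∃ C : ℝ, ∀ N U, Par (Xs a) N U → ∀ u ∈ U, (N u).1 ≠ 0 →
    NN (lv (psi a ∘ N) u) ∧
    ‖(N u).1‖ ^ 2 * hdet (lv (psi a ∘ N) u) =
      16 * ‖dt (fderiv ℂ (fun y => (N y).1) u) (fderiv ℂ (fun y => (N y).2.2) u)‖ ^ 2 ∧
    hmix (lv (psi a ∘ N) u) (rk (psi a ∘ N) u) ≤ psi a (N u) * hdet (lv (psi a ∘ N) u) ∧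
    (psi a (N u) - C) * hdet (lv (psi a ∘ N) u) ≤ hmix (lv (psi a ∘ N) u) (rk (psi a ∘ N) u)

def SPAR : Prop := ∀ n : ℕ, 1 ≤ n → KsF n → ChF → LogF n → ParF n

/-- The gradient bounds `ψ - C ≤ |dψ|² ≤ ψ`. -/
def QB (a : Fin n → ℂ) : Prop :=
  ∃ C : ℝ, ∀ N U, Par (Xs a) N U → ∀ u ∈ U,
    hmix (lv (psi a ∘ N) u) (rk (psi a ∘ N) u) ≤ psi a (N u) * hdet (lv (psi a ∘ N) u) ∧
    (psi a (N u) - C) * hdet (lv (psi a ∘ N) u) ≤ hmix (lv (psi a ∘ N) u) (rk (psi a ∘ N) u)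

def SRF : Prop :=
  ∀ n : ℕ, 1 ≤ n → ChF → SmF n → DenF n → VolF n → ParF n →
    ∀ a : Fin n → ℂ, Function.Injective a → RFlat (Xs a) (psi a) ∧ QB a

/-- The error term on the cover decays with all derivatives. -/
def ErrB (a : Fin n → ℂ) : Prop :=
  ContDiff ℝ ∞ (err a) ∧ ∀ (C0 Ξ : ℝ) (l : List (Fin 4)), ∃ M : ℝ, ∀ w ξ : ℂ, -C0 ≤ w.re → ‖ξ‖ ≤ Ξ →
    |DL l (err a) (w, ξ)| ≤ M * Real.exp (-2 * w.re)

def SERR : Prop :=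
  D2.SSCALE → ∀ n : ℕ, 1 ≤ n → PsF n → KsF n → ∀ a : Fin n → ℂ, ErrB a

/-- The roots of unity. -/
def rt (n : ℕ) : Fin n → ℂ := fun j => Complex.exp (2 * Real.pi * Complex.I * (j : ℕ) / n)

structure RtF (n : ℕ) : Prop where
  inj : Function.Injective (rt n)
  norm : ∀ j, ‖rt n j‖ = 1
  pz : ∀ (t : ℝ) (z : ℂ), Pz (sc t (rt n)) z = z ^ n - (t : ℂ) ^ n
  pz1 : ∀ z : ℂ, Pz (rt n) z = z ^ n - 1
  surf : Xs (rt n) = H.surf n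
  perm : ∀ ζ : ℂ, ζ ^ n = 1 → ∃ σ : Equiv.Perm (Fin n), ∀ j, rt n (σ j) = ζ * rt n j

def SRT : Prop := ∀ n : ℕ, 1 ≤ n → RtF n

def SKF : Prop := ∀ n : ℕ, 1 ≤ n → MuF n → PsF n → KsF n → RtF n → D2.KF n (pot (rt n))

end

end Pool.Agent.MP_67f0e4_gt.D1
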