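import Pool.Agent.MP_67f0e4_gt.D1.Spec
import Pool.Agent.MP_67f0e4_gt.H.Iface

/-! Block D: statements with complex smooth maps in place of analytic ones, and assembly rows. -/

open scoped ContDiff Topology ComplexConjugate
open Filter Set

namespace Pool.Agent.MP_67f0e4_gt.D1

open K

noncomputable section

variable {n : ℕ}

/-- Change of holomorphic coordinates. -/
structure ChF2 : Prop where
  det : ∀ (f : V → ℝ) (T : V → V) (u : V), ContDiffAt ℝ 2 f (T u) → ContDiffAt ℂ ∞ T u →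
    hdet (lv (fun w => f (T w)) u) =
      ‖dt (fderiv ℂ (fun w => (T w).1) u) (fderiv ℂ (fun w => (T w).2) u)‖ ^ 2 * hdet (lv f (T u))
  mix : ∀ (f : V → ℝ) (T : V → V) (u : V), ContDiffAt ℝ 2 f (T u) → ContDiffAt ℂ ∞ T u →
    hmix (lv (fun w => f (T w)) u) (rk (fun w => f (T w)) u) =
      ‖dt (fderiv ℂ (fun w => (T w).1) u) (fderiv ℂ (fun w => (T w).2) u)‖ ^ 2 *
        hmix (lv f (T u)) (rk f (T u))
  qf : ∀ (f : V → ℝ) (T : V → V) (u : V), ContDiffAt ℝ 2 f (T u) → ContDiffAt ℂ ∞ T u →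
    ∀ v, qf (lv (fun w => f (T w)) u) v = qf (lv f (T u)) (fderiv ℂ T u v)
  germ : ∀ (f g : V → ℝ) (u : V), f =ᶠ[𝓝 u] g → lv f u = lv g u ∧ rk f u = rk g u
  cont : ∀ (f : V → ℝ) (u : V), ContDiffAt ℝ ∞ f u →
    ContinuousAt (fun w => lv f w) u ∧ ContinuousAt (fun w => rk f w) u
  plh : ∀ (J : V → ℂ) (c : ℝ) (u : V), ContDiffAt ℂ ∞ J u → J u ≠ 0 → 0 < c →
    lv (fun w => Real.log (c * ‖J w‖ ^ 2)) u = 0
  posdet : ∀ g : Hm, NN g → 0 < hdet g → Pos g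

def SCH2 : Prop := ChF2

/-- At every point of a parametrisation the holomorphic volume form is a nonvanishing holomorphic
function. -/
def VolF2 (n : ℕ) : Prop :=
  ∀ a : Fin n → ℂ, Function.Injective a → ∀ N U, Par (Xs a) N U → ∀ u ∈ U,
    ∃ J : V → ℂ, ContDiffAt ℂ ∞ J u ∧ J u ≠ 0 ∧ ∀ᶠ w in 𝓝 u,
      dt (fderiv ℂ (fun y => (N y).1) w) (fderiv ℂ (fun y => (N y).2.2) w) = (N w).1 * J w

def SDEN2 : Prop := ∀ n : ℕ, 1 ≤ n → DenF n ∧ VolF2 n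

def SPAR2 : Prop := ∀ n : ℕ, 1 ≤ n → KsF n → ChF2 → LogF n → ParF n

def SRF2 : Prop :=
  ∀ n : ℕ, 1 ≤ n → ChF2 → SmF n → DenF n → VolF2 n → ParF n →
    ∀ a : Fin n → ℂ, Function.Injective a → RFlat (Xs a) (psi a) ∧ QB a

/-- The gradient bound in the form of the statement layer. -/
def SGRAD : Prop :=
  ∀ (n : ℕ) (a : Fin n → ℂ), RFlat (Xs a) (psi a) → QB a →
    ∀ N U, Par (Xs a) N U → ∀ x ∈ U, ∀ v,
      D v (psi a ∘ N) x ^ 2 ≤ 1 * psi a (N x) * qf (lv (psi a ∘ N) x) v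

/-- The two standard parametrisations. -/
def SSX : Prop :=
  ∀ (n : ℕ) (a : Fin n → ℂ), Par (Xs a) (sx a) {q | q.1 ≠ 0} ∧
    Par (Xs a) (fun q => swap (sx a q)) {q | q.1 ≠ 0} ∧
    Par (Xs a) (fun q => sx a (Complex.exp q.1, q.2)) univ

/-- Non-zero curvature along the curve `z = 0`. -/
def SCURV : Prop :=
  ∀ (n : ℕ) (pot : ℝ → V → ℝ), 2 ≤ n → D2.KF n pot →
    H.CurvData (fun q : V => pot 1 (Complex.exp q.1, q.2)) 0

/-- The exchange of the two complex coordinates. -/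
def sw (ι : D2.E4 ≃L[ℝ] V) : D2.E4 ≃L[ℝ] V := ι.trans (ContinuousLinearEquiv.prodComm ℝ ℂ ℂ)

/-- The metric read through `(x, z)` and through `(y, z)` is the same. -/
def SOVER : Prop :=
  ∀ (n : ℕ) (pot : ℝ → V → ℝ) (ι : D2.E4 ≃L[ℝ] V) (κ : ℝ), 1 ≤ n → D2.LamF n → D2.LevF →
    D2.KF n pot →
    (∀ x z : ℂ, x ≠ 0 → z ^ n - 1 ≠ 0 → pot 1 ((z ^ n - 1) / x, z) = pot 1 (x, z)) →
    ∀ v, ((1 : ℝ), v) ∈ D2.WW n ι κ → ((1 : ℝ), v) ∈ D2.WW n (sw ι) κ →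
      D2.GG n pot ι κ 1 v = D2.GG n pot (sw ι) κ 1 v

/-- The chart at infinity. -/
def InfF (n : ℕ) : Prop :=
  ∃ (Γ : Subgroup (D2.E4 ≃ₗᵢ[ℝ] D2.E4)) (R : ℝ) (Θ : D2.E4 → D2.XX n)
    (G : D2.E4 → D2.E4 → D2.E4 → ℝ), D2.IsEnd Γ R Θ ∧ IsCyclic Γ ∧ Nat.card Γ = n ∧
    H.InfData (H.surf n) (psi (rt n)) Γ R 2 Θ G

def SINF : Prop :=
  D2.SGAM → D2.SINJ → D2.SSUR → D2.SPHI → D2.LevF → D2.SGS → D2.SGZ → D2.SGH → D2.SDEC → SSX →
    SOVER → ∀ n : ℕ, 1 ≤ n → D2.LamF n → PsF n → RtF n → D2.KF n (pot (rt n)) → InfF n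

/-- The surface is not homeomorphic to the tangent bundle of the sphere. -/
def STOP : Prop :=
  D2.SEND → D2.STS → ∀ n : ℕ, 3 ≤ n → InfF n → IsEmpty (H.surf n ≃ₜ H.tangentS2)

end

end Pool.Agent.MP_67f0e4_gt.D1
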